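import Pool.Agent.MP_815c6c_an.ODE

/-!
The shooting argument: a value of the homogeneity degree `k` and a solution `R` of the profile
equation on `[0,1)` that is pinched at the singular end `w = 1`.
-/

open Set Filter Topology Metric

namespace Pool.Agent.MP_815c6c_an

/-- The constant `μ = k (p-1) + N - p`. -/
def mu (N p k : ℝ) : ℝ := k * (p - 1) + N - p

/-- `(1 - w^2) R' = Gf N p k w R` is the profile equation. -/
noncomputable def Gf (N p k w R : ℝ) : ℝ :=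
  (R ^ 2 + (1 - w ^ 2)) * (mu N p k * R ^ 2 - (N - 2) * w * R + k * (p - 1) * (1 - w ^ 2)) /
    (2 * (R ^ 2 + (p - 1) * (1 - w ^ 2))) - w * R

lemma Gf_neg (N p k w R : ℝ) : Gf N p k (-w) (-R) = Gf N p k w R := by
  unfold Gf; ring

section
variable {N p k w R : ℝ}

lemma Gf_zero_pos (hp : 1 < p) (hk : 0 < k) (hy : 0 < 1 - w ^ 2) : 0 < Gf N p k w 0 := by
  have : 0 < p - 1 := by linarith
  unfold Gf
  simp only [ne_eq, OfNat.ofNat_ne_zero, not_false_eq_true, zero_pow, zero_add, mul_zero,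
    sub_zero]
  positivity

lemma Gf_top_pos (hp : 1 < p) (hp2 : p < 2) (hk : 0 < k) (hN : 4 ≤ N) (hw0 : 0 ≤ w) (hw : w < 1)
    (hR : 0 < R) (hmu : N ≤ mu N p k * R) : 0 < Gf N p k w R := by
  have hp' : 0 < p - 1 := by linarith
  have hy : 0 < 1 - w ^ 2 := by nlinarith
  have hD : 0 < R ^ 2 + (p - 1) * (1 - w ^ 2) := by positivity
  have h1 : 0 < k * (p - 1) * (1 - w ^ 2) := by positivity
  have h2 : N * w * R ≤ mu N p k * R ^ 2 := by
    have : N * w ≤ mu N p k * R := by nlinarith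
    nlinarith
  unfold Gf
  rw [sub_pos, lt_div_iff₀ (by positivity)]
  set Q := mu N p k * R ^ 2 - (N - 2) * w * R + k * (p - 1) * (1 - w ^ 2) with hQ
  have hQ1 : 2 * (w * R) < Q := by rw [hQ]; nlinarith
  have hwR : 0 ≤ w * R := by positivity
  have hE : R ^ 2 + (p - 1) * (1 - w ^ 2) ≤ R ^ 2 + (1 - w ^ 2) := by nlinarith
  nlinarith

lemma Gf_bot_neg (hp : 1 < p) (hp2 : p < 2) (hk3 : k * (p - 1) ≤ 3) (hN : 4 ≤ N)
    (hw0 : 99 / 100 ≤ w) (hw : w < 1) (hmu1 : N - 1 ≤ mu N p k) (hmu2 : mu N p k ≤ N)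
    (hR : R = N / mu N p k - 20 * (1 - w ^ 2)) : Gf N p k w R < 0 := by
  have hp' : 0 < p - 1 := by linarith
  set y := 1 - w ^ 2 with hy
  have hy0 : 0 < y := by nlinarith
  have hy1 : y ≤ 1 / 40 := by nlinarith
  have hmu0 : 0 < mu N p k := by linarith
  set μ := mu N p k with hμ
  have hR1 : 1 ≤ N / μ := by rw [le_div_iff₀ hmu0]; linarith
  have hR2 : N / μ ≤ 2 := by rw [div_le_iff₀ hmu0]; linarith
  have hRl : 1 / 2 ≤ R := by linarith
  have hRu : R ≤ 2 := by linarith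
  have hmuR : μ * R = N - 20 * μ * y := by rw [hR]; field_simp
  have hD : 0 < R ^ 2 + (p - 1) * y := by positivity
  have hwy : 1 - w ≤ y := by nlinarith
  unfold Gf
  rw [← hy, ← hμ, sub_neg, div_lt_iff₀ (by positivity)]
  set D := R ^ 2 + (p - 1) * y with hDdef
  set Q := μ * R ^ 2 - (N - 2) * w * R + k * (p - 1) * y with hQ
  have hE : R ^ 2 + y = D + (2 - p) * y := by rw [hDdef]; ring
  have hD4 : 1 / 4 ≤ D := by nlinarith [mul_pos hp' hy0]
  have hDR : R ^ 2 ≤ D := by nlinarith [mul_pos hp' hy0]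
  -- `Q - 2 w R ≤ - c y`
  have hQ1 : Q - 2 * w * R ≤ -(10 * (N - 1)) * y + 2 * N * y + 3 * y := by
    have e : Q - 2 * w * R = -(20 * μ * y * R) + N * (1 - w) * R + k * (p - 1) * y := by
      rw [hQ]; have : μ * R ^ 2 = (μ * R) * R := by ring
      rw [this, hmuR]; ring
    rw [e]
    have a1 : 10 * (N - 1) * y ≤ 20 * μ * y * R := by
      have : (N - 1) * (1 / 2) ≤ μ * R := by nlinarith
      nlinarith
    have a2 : N * (1 - w) * R ≤ 2 * N * y := by
      have : (1 - w) * R ≤ y * 2 := by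
        apply mul_le_mul hwy hRu (by linarith) hy0.le
      nlinarith
    have a3 : k * (p - 1) * y ≤ 3 * y := by nlinarith
    linarith
  -- `Q ≤ (N + 12) D`
  have hQ2 : Q ≤ (N + 12) * D := by
    have a1 : μ * R ^ 2 ≤ N * D := by
      apply mul_le_mul hmu2 hDR (by positivity) (by linarith)
    have a2 : 0 ≤ (N - 2) * w * R := by
      have : 0 ≤ N - 2 := by linarith
      have : 0 ≤ w := by linarith
      positivity
    have a3 : k * (p - 1) * y ≤ 3 * y := by nlinarith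
    nlinarith
  have hQ3 : (2 - p) * y * Q ≤ y * ((N + 12) * D) := by
    have h0 : 0 ≤ (N + 12) * D := by positivity
    calc (2 - p) * y * Q ≤ (2 - p) * y * ((N + 12) * D) := by
          apply mul_le_mul_of_nonneg_left hQ2; exact mul_nonneg (by linarith) hy0.le
      _ ≤ 1 * y * ((N + 12) * D) := by gcongr; linarith
      _ = _ := by ring
  rw [hE]
  have hfin : D * (Q - 2 * w * R) ≤ D * (-(10 * (N - 1)) * y + 2 * N * y + 3 * y) :=
    mul_le_mul_of_nonneg_left hQ1 hD.le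
  have hyD : 0 < y * D := by positivity
  nlinarith

lemma Gf_line_lt (hp : 1 < p) (hk : k < 2) (hmu : mu N p k < N) (hy : 0 < 1 - w ^ 2) :
    Gf N p k w w < 1 - w ^ 2 := by
  have hp' : 0 < p - 1 := by linarith
  have hD : 0 < w ^ 2 + (p - 1) * (1 - w ^ 2) := by positivity
  unfold Gf
  rw [sub_lt_iff_lt_add, div_lt_iff₀ (by positivity)]
  have a1 : 0 < (2 - k) * ((p - 1) * (1 - w ^ 2)) := by
    apply mul_pos (by linarith); positivity
  have a2 : 0 ≤ (N - mu N p k) * w ^ 2 := mul_nonneg (by linarith) (sq_nonneg w)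
  nlinarith

/-- The middle coefficient in the comparison with the line `R = c w`. -/
def mid (N p k c : ℝ) : ℝ :=
  mu N p k * c - (N - 2) + c * k * (p - 1) - 2 * (p - 1) - 2 * c ^ 2

lemma Gf_line_gt {c : ℝ} (hp : 1 < p) (hc : 0 < c) (hk : 2 * c < k) (hmu : N ≤ mu N p k * c)
    (hmid : 0 ≤ mid N p k c) (hy : 0 < 1 - w ^ 2) :
    c * (1 - w ^ 2) < Gf N p k w (c * w) := by
  have hp' : 0 < p - 1 := by linarith
  have hD : 0 < (c * w) ^ 2 + (p - 1) * (1 - w ^ 2) := by positivity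
  unfold Gf
  rw [lt_sub_iff_add_lt, lt_div_iff₀ (by positivity)]
  have a1 : 0 < (1 - w ^ 2) ^ 2 * ((p - 1) * (k - 2 * c)) := by
    apply mul_pos (by positivity); apply mul_pos hp'; linarith
  have a2 : 0 ≤ (w ^ 2) ^ 2 * (c ^ 3 * (mu N p k * c - N)) := by
    apply mul_nonneg (by positivity); apply mul_nonneg (by positivity); linarith
  have a3 : 0 ≤ w ^ 2 * (1 - w ^ 2) * (c * mid N p k c) := by positivity
  have e : ((c * w) ^ 2 + (1 - w ^ 2)) *
      (mu N p k * (c * w) ^ 2 - (N - 2) * w * (c * w) + k * (p - 1) * (1 - w ^ 2)) -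
      (c * (1 - w ^ 2) + w * (c * w)) * (2 * ((c * w) ^ 2 + (p - 1) * (1 - w ^ 2))) =
      (1 - w ^ 2) ^ 2 * ((p - 1) * (k - 2 * c)) + (w ^ 2) ^ 2 * (c ^ 3 * (mu N p k * c - N)) +
      w ^ 2 * (1 - w ^ 2) * (c * mid N p k c) := by
    unfold mid; ring
  linarith

end

lemma exists_upper {N p : ℝ} (hp : 1 < p) (hp2 : p < 2) (hN : 4 ≤ N)
    (hc : 0 < 3 * p ^ 2 + (N - 5) * p - 6) :
    ∃ k c : ℝ, 3 / 2 ≤ k ∧ k < 1 + 2 / p ∧ 0 < c ∧ c ≤ 2 ∧ 2 * c < k ∧ N ≤ mu N p k * c ∧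
      0 ≤ mid N p k c := by
  have hp0 : 0 < p := by linarith
  obtain ⟨u, hu⟩ : ∃ u, u = 2 / p := ⟨_, rfl⟩
  have hu1 : 1 < u := by rw [hu, lt_div_iff₀ hp0]; linarith
  have hu2 : u < 2 := by rw [hu, div_lt_iff₀ hp0]; linarith
  have h1 : N < mu N p (1 + u - 0) * ((1 + u) / 2 - 0) := by
    have e : mu N p (1 + u - 0) * ((1 + u) / 2 - 0) - N = (u - 1) * (N - 1 - u) / 2 := by
      unfold mu; rw [hu]; field_simp; ring
    have : 0 < (u - 1) * (N - 1 - u) := mul_pos (by linarith) (by linarith)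
    linarith
  have h2 : 0 < mid N p (1 + u - 0) ((1 + u) / 2 - 0) := by
    have e : mid N p (1 + u - 0) ((1 + u) / 2 - 0) =
        (u - 1) / (2 * p) * (3 * p ^ 2 + (N - 5) * p - 6) := by
      unfold mid mu; rw [hu]; field_simp; ring
    rw [e]
    exact mul_pos (div_pos (by linarith) (by linarith)) hc
  have c1 : ContinuousAt (fun δ : ℝ => mu N p (1 + u - δ) * ((1 + u) / 2 - δ)) 0 := by
    unfold mu; fun_prop
  have c2 : ContinuousAt (fun δ : ℝ => mid N p (1 + u - δ) ((1 + u) / 2 - δ)) 0 := by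
    unfold mid mu; fun_prop
  have e1 := continuousAt_const.eventually_lt c1 h1
  have e2 := continuousAt_const.eventually_lt c2 h2
  have e3 : ∀ᶠ δ : ℝ in 𝓝 0, δ < 1 / 2 := eventually_lt_nhds (by norm_num)
  obtain ⟨δ, ⟨⟨d1, d2⟩, d3⟩, d4⟩ :=
    ((((e1.and e2).and e3).filter_mono nhdsWithin_le_nhds).and
      (self_mem_nhdsWithin (s := Ioi (0:ℝ)))).exists
  have d4' : 0 < δ := d4
  refine ⟨1 + u - δ, (1 + u) / 2 - δ, by linarith, by rw [← hu]; linarith, by linarith,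
    by linarith, by linarith, d1.le, d2.le⟩

theorem exists_half_profile {N p : ℝ} (hp : 1 < p) (hp2 : p < 2) (hN : 4 ≤ N)
    (hc : 0 < 3 * p ^ 2 + (N - 5) * p - 6) :
    ∃ k : ℝ, 3 / 2 ≤ k ∧ k < 1 + 2 / p ∧ ∃ R : ℝ → ℝ, R 0 = 0 ∧
      (∀ w ∈ Ico (0:ℝ) 1, HasDerivWithinAt R (Gf N p k w (R w) / (1 - w ^ 2)) (Ici 0) w) ∧
      (∀ w ∈ Ico (0:ℝ) 1, 0 ≤ R w ∧ R w ≤ N / mu N p k) ∧
      ∀ w ∈ Ico (99 / 100 : ℝ) 1, N / mu N p k - 20 * (1 - w ^ 2) ≤ R w := by
  obtain ⟨b, c, hb1, hb2, hc0, hc2, hcb, hmuc, hmid⟩ := exists_upper hp hp2 hN hc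
  have hp0 : 0 < p := by linarith
  have hp' : 0 < p - 1 := by linarith
  have hkp : ∀ k ∈ Icc (3 / 2) b, k * (p - 1) < p := by
    intro k hk
    have h1 : k * (p - 1) ≤ (1 + 2 / p) * (p - 1) :=
      mul_le_mul_of_nonneg_right (by linarith [hk.2]) hp'.le
    have h2 : (1 + 2 / p) * (p - 1) = p + 1 - 2 / p := by field_simp; ring
    have h3 : 1 < 2 / p := by rw [lt_div_iff₀ hp0]; linarith
    linarith
  have hmu1 : ∀ k ∈ Icc (3 / 2) b, N - 1 ≤ mu N p k := by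
    intro k hk; unfold mu; nlinarith [hk.1]
  have hmu2 : ∀ k ∈ Icc (3 / 2) b, mu N p k < N := by
    intro k hk; unfold mu; linarith [hkp k hk]
  have hmu0 : ∀ k ∈ Icc (3 / 2) b, 0 < mu N p k := fun k hk => by linarith [hmu1 k hk]
  have hR1 : ∀ k ∈ Icc (3 / 2) b, 1 ≤ N / mu N p k := fun k hk => by
    rw [le_div_iff₀ (hmu0 k hk)]; linarith [hmu2 k hk]
  have hR2 : ∀ k ∈ Icc (3 / 2) b, N / mu N p k ≤ 2 := fun k hk => by
    rw [div_le_iff₀ (hmu0 k hk)]; linarith [hmu1 k hk]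
  have hy : ∀ w : ℝ, 0 ≤ w → w < 1 → 0 < 1 - w ^ 2 := fun w h0 h1 => by nlinarith
  obtain ⟨R, hR, hcont⟩ := exists_family
    (fun z => Gf N p z.1 z.2.1 z.2.2 / (1 - z.2.1 ^ 2)) (3 / 2) b (by
      unfold Gf mu
      refine ContDiffOn.div (ContDiffOn.sub (ContDiffOn.div (by fun_prop) (by fun_prop) ?_)
        (by fun_prop)) (by fun_prop) ?_
      · rintro ⟨k, w, x⟩ ⟨-, hw, -⟩
        have := hy w hw.1 hw.2
        positivity
      · rintro ⟨k, w, x⟩ ⟨-, hw, -⟩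
        exact (hy w hw.1 hw.2).ne')
  -- comparison from below and from above
  have below : ∀ k ∈ Icc (3 / 2) b, ∀ (B B' : ℝ → ℝ) (a T : ℝ), 0 ≤ a → T < 1 →
      (∀ x, HasDerivAt B (B' x) x) → B a ≤ R k a →
      (∀ x ∈ Ico a T, B x ∈ Icc (0:ℝ) 2 ∧ B' x * (1 - x ^ 2) < Gf N p k x (B x)) →
      ∀ x ∈ Icc a T, B x ≤ R k x := by
    intro k hk B B' a T ha hT hB hBa hlt x hx
    refine image_le_of_deriv_right_lt_deriv_boundary' (f' := B')
      (fun x _ => (hB x).continuousAt.continuousWithinAt) (fun x _ => (hB x).hasDerivWithinAt)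
      hBa ((hR k hk).continuousOn ha hT) ((hR k hk).right ha hT) (fun s hs he => ?_) hx
    obtain ⟨h1, h2⟩ := hlt s hs
    simp only
    rw [← he, clamp_of_mem h1.1 h1.2, lt_div_iff₀ (hy s (ha.trans hs.1) (hs.2.trans hT))]
    exact h2
  have above : ∀ k ∈ Icc (3 / 2) b, ∀ (B B' : ℝ → ℝ) (a T : ℝ), 0 ≤ a → T < 1 →
      (∀ x, HasDerivAt B (B' x) x) → R k a ≤ B a →
      (∀ x ∈ Ico a T, B x ∈ Icc (0:ℝ) 2 ∧ Gf N p k x (B x) < B' x * (1 - x ^ 2)) →
      ∀ x ∈ Icc a T, R k x ≤ B x := by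
    intro k hk B B' a T ha hT hB hBa hlt x hx
    refine image_le_of_deriv_right_lt_deriv_boundary
      ((hR k hk).continuousOn ha hT) ((hR k hk).right ha hT) hBa hB (fun s hs he => ?_) hx
    obtain ⟨h1, h2⟩ := hlt s hs
    simp only
    rw [he, clamp_of_mem h1.1 h1.2, div_lt_iff₀ (hy s (ha.trans hs.1) (hs.2.trans hT))]
    exact h2
  have hlowderiv : ∀ k x : ℝ, HasDerivAt (fun w : ℝ => N / mu N p k - 20 * (1 - w ^ 2))
      (40 * x) x := by
    intro k x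
    have := (((hasDerivAt_pow 2 x).const_sub 1).const_mul 20).const_sub (N / mu N p k)
    refine this.congr_deriv ?_
    norm_num
    ring
  -- the two exit sets
  let K := Icc (3 / 2 : ℝ) b
  let Top : Set K := {k | ∃ w ∈ Ico (0:ℝ) 1, N / mu N p k < R k w}
  let Bot : Set K := {k | ∃ w ∈ Ico (99 / 100 : ℝ) 1, R k w < N / mu N p k - 20 * (1 - w ^ 2)}
  have hcmu : Continuous fun k : K => N / mu N p k := by
    refine continuous_const.div (by unfold mu; fun_prop) fun k => (hmu0 k k.2).ne'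
  have hTop : IsOpen Top := by
    have : Top = ⋃ w ∈ Ico (0:ℝ) 1, {k : K | N / mu N p k < R k w} := by
      ext k; simp [Top]
    rw [this]
    exact isOpen_biUnion fun w hw => isOpen_lt hcmu (hcont w hw).domRestrict
  have hBot : IsOpen Bot := by
    have : Bot = ⋃ w ∈ Ico (99 / 100 : ℝ) 1,
        {k : K | R k w < N / mu N p k - 20 * (1 - w ^ 2)} := by
      ext k; simp [Bot]
    rw [this]
    exact isOpen_biUnion fun w hw => isOpen_lt
      (hcont w ⟨by linarith [hw.1], hw.2⟩).domRestrict (hcmu.sub continuous_const)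
  have hdisj : ∀ k : K, k ∈ Top → k ∉ Bot := by
    rintro k ⟨w₁, hw₁, h₁⟩ ⟨w₂, hw₂, h₂⟩
    have hT : max w₁ w₂ < 1 := max_lt hw₁.2 hw₂.2
    have hk0 : (0:ℝ) < k := by linarith [k.2.1]
    have a1 := below k k.2 (fun _ => N / mu N p k) (fun _ => 0) w₁ (max w₁ w₂) hw₁.1 hT
      (fun x => hasDerivAt_const x _) h₁.le (fun x hx => ⟨⟨by linarith [hR1 k k.2], hR2 k k.2⟩, by
        rw [zero_mul]
        exact Gf_top_pos hp hp2 hk0 hN (hw₁.1.trans hx.1) (hx.2.trans hT)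
          (by linarith [hR1 k k.2]) (by rw [mul_div_cancel₀ _ (hmu0 k k.2).ne'])⟩)
      (max w₁ w₂) ⟨le_max_left _ _, le_rfl⟩
    have a2 := above k k.2 (fun w => N / mu N p k - 20 * (1 - w ^ 2)) (fun x => 40 * x) w₂
      (max w₁ w₂) (by linarith [hw₂.1]) hT (hlowderiv k) h₂.le (fun x hx => by
        have hx0 : 99 / 100 ≤ x := hw₂.1.trans hx.1
        have hx1 : x < 1 := hx.2.trans hT
        have hyx := hy x (by linarith) hx1
        refine ⟨⟨by nlinarith [hR1 k k.2], by linarith [hR2 k k.2]⟩, ?_⟩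
        refine (Gf_bot_neg hp hp2 (by linarith [hkp k k.2]) hN hx0 hx1 (hmu1 k k.2)
          (hmu2 k k.2).le rfl).trans ?_
        have : 0 < x := by linarith
        positivity)
      (max w₁ w₂) ⟨le_max_right _ _, le_rfl⟩
    have := hy (max w₁ w₂) (hw₁.1.trans (le_max_left _ _)) hT
    linarith
  have hlo : (⟨3 / 2, le_rfl, hb1⟩ : K) ∉ Top := by
    rintro ⟨w, hw, h⟩
    have hk : (3 / 2 : ℝ) ∈ Icc (3 / 2) b := ⟨le_rfl, hb1⟩
    have := above (3 / 2) hk (fun w => w) (fun _ => 1) 0 w le_rfl hw.2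
      (fun x => hasDerivAt_id x) (hR _ hk).1.le (fun x hx => ⟨⟨hx.1, by linarith [hx.2, hw.2]⟩, by
        rw [one_mul]
        exact Gf_line_lt hp (by norm_num) (hmu2 _ hk) (hy x hx.1 (hx.2.trans hw.2))⟩)
      w ⟨hw.1, le_rfl⟩
    simp only at this h
    linarith [hR1 _ hk, hw.2]
  have hhi : (⟨b, hb1, le_rfl⟩ : K) ∉ Bot := by
    rintro ⟨w, hw, h⟩
    have hk : b ∈ Icc (3 / 2) b := ⟨hb1, le_rfl⟩
    have hw0 : 0 ≤ w := by linarith [hw.1]
    have := below b hk (fun w => c * w) (fun _ => c) 0 w le_rfl hw.2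
      (fun x => by simpa using (hasDerivAt_id x).const_mul c) (by simp [(hR _ hk).1])
      (fun x hx => ⟨⟨mul_nonneg hc0.le hx.1, by nlinarith [hx.2, hw.2, hx.1]⟩,
        Gf_line_gt hp hc0 hcb hmuc hmid (hy x hx.1 (hx.2.trans hw.2))⟩)
      w ⟨hw0, le_rfl⟩
    simp only at this h
    have h1 : N / mu N p b ≤ c := by rw [div_le_iff₀ (hmu0 b hk)]; linarith
    have h2 : N / mu N p b * w ≤ c * w := mul_le_mul_of_nonneg_right h1 hw0
    have h3 : 1 - w ≤ 1 - w ^ 2 := by nlinarith [hw.2]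
    nlinarith [hR1 b hk, hR2 b hk, hw.2]
  have hex : ∃ k : K, k ∉ Top ∧ k ∉ Bot := by
    by_contra hne
    push Not at hne
    have hcompl : Topᶜ = Bot := by
      ext k; exact ⟨fun h => hne k h, fun h h' => hdisj k h' h⟩
    have : PreconnectedSpace K := isPreconnected_iff_preconnectedSpace.1 isPreconnected_Icc
    have hclopen : IsClopen Top := ⟨by rw [← isOpen_compl_iff, hcompl]; exact hBot, hTop⟩
    rcases isClopen_iff.1 hclopen with h | h
    · exact hhi (by rw [← hcompl, h]; simp)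
    · exact hlo (by rw [h]; trivial)
  obtain ⟨k, hkT, hkB⟩ := hex
  have hk0 : (0:ℝ) < k := by linarith [k.2.1]
  have hbd : ∀ w ∈ Ico (0:ℝ) 1, 0 ≤ R k w ∧ R k w ≤ N / mu N p k := by
    intro w hw
    refine ⟨?_, not_lt.1 fun h => hkT ⟨w, hw, h⟩⟩
    exact below k k.2 (fun _ => 0) (fun _ => 0) 0 w le_rfl hw.2
      (fun x => hasDerivAt_const x _) (hR _ k.2).1.ge (fun x hx => ⟨⟨le_rfl, by norm_num⟩, by
        rw [zero_mul]
        exact Gf_zero_pos hp hk0 (hy x hx.1 (hx.2.trans hw.2))⟩) w ⟨hw.1, le_rfl⟩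
  refine ⟨k, k.2.1, k.2.2.trans_lt hb2, R k, (hR _ k.2).1, fun w hw => ?_, hbd,
    fun w hw => not_lt.1 fun h => hkB ⟨w, hw, h⟩⟩
  have := (hR _ k.2).2 w hw
  simp only at this
  rwa [clamp_of_mem (hbd w hw).1 ((hbd w hw).2.trans (hR2 k k.2))] at this

end Pool.Agent.MP_815c6c_an
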