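import Mathlib.MeasureTheory.Measure.Haar.InnerProductSpace
import Mathlib.Algebra.Ring.IsFormallyReal
import Mathlib.MeasureTheory.Integral.DivergenceTheorem
import Mathlib.MeasureTheory.Integral.Pi
import Mathlib.Analysis.SpecialFunctions.Pow.Integral
import Mathlib.Topology.Separation.CompletelyRegular
import Mathlib.MeasureTheory.Order.Group.Lattice
import Pool.Agent.MP_815c6c_an.Shoot

-- ======== part 0: formerly Pool.Agent.MP_815c6c_an.Profile
section MrgPart0

/-!
The odd extension of the profile to `[-1,1]` and the functions built from it.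
-/

open Set Filter Topology Metric Asymptotics MeasureTheory

namespace Pool.Agent.MP_815c6c_an

theorem exists_profile {N p : ℝ} (hp : 1 < p) (hp2 : p < 2) (hN : 4 ≤ N)
    (hc : 0 < 3 * p ^ 2 + (N - 5) * p - 6) :
    ∃ k : ℝ, 3 / 2 ≤ k ∧ k < 1 + 2 / p ∧ ∃ (R : ℝ → ℝ) (C : ℝ),
      (∀ w ∈ Ioo (-1:ℝ) 1, HasDerivAt R (Gf N p k w (R w) / (1 - w ^ 2)) w) ∧
      ∀ w ∈ Icc (-1:ℝ) 1, |N * w - mu N p k * R w| ≤ C * (1 - w ^ 2) := by
  obtain ⟨k, hk1, hk2, S, hS0, hSd, hSb, hSl⟩ := exists_half_profile hp hp2 hN hc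
  have hmu1 : N - 1 ≤ mu N p k := by unfold mu; nlinarith
  have hmu0 : 0 < mu N p k := by linarith
  have hp0 : 0 < p := by linarith
  have hmu2 : mu N p k ≤ N := by
    have h1 : k * (p - 1) ≤ (1 + 2 / p) * (p - 1) :=
      mul_le_mul_of_nonneg_right hk2.le (by linarith)
    have h2 : (1 + 2 / p) * (p - 1) = p + 1 - 2 / p := by field_simp; ring
    have h3 : 1 < 2 / p := by rw [lt_div_iff₀ hp0]; linarith
    unfold mu; linarith
  -- value at the end point
  let S1 : ℝ → ℝ := fun w => if w < 1 then S w else N / mu N p k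
  have hS1d : ∀ w ∈ Ico (0:ℝ) 1,
      HasDerivWithinAt S1 (Gf N p k w (S1 w) / (1 - w ^ 2)) (Ici 0) w := by
    intro w hw
    have e : S1 w = S w := if_pos hw.2
    rw [e]
    refine (hSd w hw).congr_of_eventuallyEq ?_ e
    filter_upwards [nhdsWithin_le_nhds (Iio_mem_nhds hw.2)] with v hv
    exact if_pos hv
  have hS1b : ∀ w ∈ Icc (0:ℝ) 1, |N * w - mu N p k * S1 w| ≤ (100 * N) * (1 - w ^ 2) := by
    intro w hw
    rcases hw.2.eq_or_lt with rfl | hw1
    · simp only [S1, lt_irrefl, if_false]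
      rw [mul_div_cancel₀ _ hmu0.ne']; simp
    have e : S1 w = S w := if_pos hw1
    rw [e]
    obtain ⟨b1, b2⟩ := hSb w ⟨hw.1, hw1⟩
    have b3 : mu N p k * S w ≤ N := by rwa [le_div_iff₀ hmu0, mul_comm] at b2
    have b4 : 0 ≤ mu N p k * S w := by positivity
    have hy : 1 - w ≤ 1 - w ^ 2 := by nlinarith [hw.1]
    have hN0 : 0 < N := by linarith
    rcases lt_or_ge w (99 / 100) with h | h
    · have : 1 / 100 ≤ 1 - w ^ 2 := by linarith
      have h1 : N * w ≤ N := by nlinarith
      have h2 : 0 ≤ N * w := mul_nonneg hN0.le hw.1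
      rw [abs_le]; constructor <;> nlinarith
    · have b5 := hSl w ⟨h, hw1⟩
      have b6 : N - 20 * mu N p k * (1 - w ^ 2) ≤ mu N p k * S w := by
        have := mul_le_mul_of_nonneg_left b5 hmu0.le
        rwa [mul_sub, mul_div_cancel₀ _ hmu0.ne', ← mul_assoc, mul_comm (mu N p k) 20] at this
      have hy0 : 0 ≤ 1 - w ^ 2 := by linarith
      have b7 : mu N p k * (1 - w ^ 2) ≤ N * (1 - w ^ 2) := mul_le_mul_of_nonneg_right hmu2 hy0
      have b8 : N * (1 - w) ≤ N * (1 - w ^ 2) := mul_le_mul_of_nonneg_left hy hN0.le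
      have b9 : 0 ≤ N * (1 - w) := mul_nonneg hN0.le (by linarith)
      have b10 : 0 ≤ N * (1 - w ^ 2) := mul_nonneg hN0.le hy0
      rw [abs_le]; constructor <;> nlinarith
  have hS10 : S1 0 = 0 := by simp [S1, hS0]
  let R : ℝ → ℝ := fun w => if 0 ≤ w then S1 w else -S1 (-w)
  have hRpos : ∀ w, 0 ≤ w → R w = S1 w := fun w hw => if_pos hw
  have hRneg : ∀ w, w ≤ 0 → R w = -S1 (-w) := by
    intro w hw
    rcases hw.eq_or_lt with rfl | h
    · simp [R, hS10]
    · exact if_neg (not_le.2 h)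
  have hright : ∀ w ∈ Ico (0:ℝ) 1,
      HasDerivWithinAt R (Gf N p k w (R w) / (1 - w ^ 2)) (Ici 0) w := by
    intro w hw
    rw [hRpos w hw.1]
    exact (hS1d w hw).congr (fun v hv => hRpos v hv) (hRpos w hw.1)
  have hleft : ∀ w ∈ Ioc (-1:ℝ) 0,
      HasDerivWithinAt R (Gf N p k w (R w) / (1 - w ^ 2)) (Iic 0) w := by
    intro w hw
    have h1 := hS1d (-w) ⟨by linarith [hw.2], by linarith [hw.1]⟩
    have h2 : HasDerivWithinAt (fun v : ℝ => -v) (-1) (Iic 0) w :=
      (hasDerivAt_neg w).hasDerivWithinAt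
    have h3 := (h1.comp w h2 (fun v hv => by simpa using hv)).neg
    refine (h3.congr (fun v hv => hRneg v hv) (hRneg w hw.2)).congr_deriv ?_
    rw [hRneg w hw.2, ← Gf_neg N p k w, neg_neg]; ring
  refine ⟨k, hk1, hk2, R, 100 * N, fun w hw => ?_, fun w hw => ?_⟩
  · rcases lt_trichotomy w 0 with h | rfl | h
    · exact (hleft w ⟨hw.1, h.le⟩).hasDerivAt (Iic_mem_nhds h)
    · have := (hleft 0 ⟨hw.1, le_rfl⟩).union (hright 0 ⟨le_rfl, hw.2⟩)
      rwa [Iic_union_Ici, hasDerivWithinAt_univ] at this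
    · exact (hright w ⟨h.le, hw.2⟩).hasDerivAt (Ici_mem_nhds h)
  · rcases le_total 0 w with h | h
    · rw [hRpos w h]; exact hS1b w ⟨h, hw.2⟩
    · rw [hRneg w h]
      have := hS1b (-w) ⟨by linarith, by linarith [hw.1]⟩
      rw [← abs_neg]
      convert this using 2 <;> ring

/-- `F` is Lipschitz at the point `w` within `[-1,1]`. -/
def LipAt {X : Type*} [NormedAddCommGroup X] (F : ℝ → X) (w : ℝ) : Prop :=
  (fun v => F v - F w) =O[𝓝[Icc (-1:ℝ) 1] w] (fun v => v - w)

section
variable {X Y : Type*} [NormedAddCommGroup X] [NormedAddCommGroup Y]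

lemma LipAt.continuousWithinAt {F : ℝ → X} {w : ℝ} (h : LipAt F w) :
    ContinuousWithinAt F (Icc (-1:ℝ) 1) w := by
  rw [ContinuousWithinAt, ← tendsto_sub_nhds_zero_iff]
  refine h.trans_tendsto ?_
  have : Tendsto (fun v : ℝ => v - w) (𝓝 w) (𝓝 (w - w)) := tendsto_id.sub_const w
  rw [sub_self] at this
  exact this.mono_left nhdsWithin_le_nhds

lemma LipAt.prodMk {F : ℝ → X} {G : ℝ → Y} {w : ℝ} (h : LipAt F w) (h' : LipAt G w) :
    LipAt (fun v => (F v, G v)) w := IsBigO.prod_left h h'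

lemma LipAt.comp [NormedSpace ℝ X] [NormedSpace ℝ Y] {F : ℝ → X} {Ψ : X → Y} {w : ℝ}
    (h : LipAt F w) (hΨ : DifferentiableAt ℝ Ψ (F w)) : LipAt (fun v => Ψ (F v)) w :=
  (hΨ.isBigO_sub.comp_tendsto h.continuousWithinAt).trans h

lemma lipAt_id (w : ℝ) : LipAt (fun v => v) w := isBigO_refl _ _

lemma lipAt_of_bound {F : ℝ → X} {w C : ℝ}
    (h : ∀ v ∈ Icc (-1:ℝ) 1, ‖F v - F w‖ ≤ C * ‖v - w‖) : LipAt F w :=
  IsBigO.of_bound C (eventually_nhdsWithin_of_forall h)

end

/-- `G` has derivative `G'` inside `(-1,1)` and is Lipschitz at each point of `[-1,1]`. -/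
def Nice (G G' : ℝ → ℝ) : Prop :=
  (∀ w ∈ Ioo (-1:ℝ) 1, HasDerivAt G (G' w) w) ∧ ∀ w ∈ Icc (-1:ℝ) 1, LipAt G w

theorem exists_profile_data {N p : ℝ} (hp : 1 < p) (hp2 : p < 2) (hN : 4 ≤ N)
    (hc : 0 < 3 * p ^ 2 + (N - 5) * p - 6) :
    ∃ k : ℝ, 3 / 2 ≤ k ∧ k < 1 + 2 / p ∧ ∃ φ u R g g' j' : ℝ → ℝ,
      Nice φ (fun w => u w / 2) ∧ ContinuousOn u (Icc (-1) 1) ∧ ContinuousOn R (Icc (-1) 1) ∧
      Nice g g' ∧ Nice (fun w => g w * (R w - w)) j' ∧
      ∀ w ∈ Icc (-1:ℝ) 1, 0 < u w ∧ 0 < R w ^ 2 + (1 - w ^ 2) ∧ k * φ w = R w * u w ∧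
        (u w * √(R w ^ 2 + (1 - w ^ 2))) ^ (p - 2) * u w = g w ∧
        2 * (1 - w ^ 2) * g' w + g w * (mu N p k * R w - N * w) = 0 := by
  obtain ⟨k, hk1, hk2, R, C, hRd, hRb⟩ := exists_profile hp hp2 hN hc
  have hmu1 : N - 1 ≤ mu N p k := by unfold mu; nlinarith
  have hmu0 : 0 < mu N p k := by linarith
  have hp' : 0 < p - 1 := by linarith
  have hk0 : 0 < k := by linarith
  have hC : 0 ≤ C := by
    have := hRb 0 ⟨by norm_num, by norm_num⟩
    have := (abs_nonneg _).trans this
    simpa using this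
  have hyI : ∀ w ∈ Ioo (-1:ℝ) 1, 0 < 1 - w ^ 2 := fun w hw => by nlinarith [hw.1, hw.2]
  have hyI' : ∀ w ∈ Icc (-1:ℝ) 1, 0 ≤ 1 - w ^ 2 := fun w hw => by nlinarith [hw.1, hw.2]
  have hsplit : ∀ w ∈ Icc (-1:ℝ) 1, w ∈ Ioo (-1:ℝ) 1 ∨ w ^ 2 = 1 := by
    intro w hw
    rcases hw.1.eq_or_lt with h | h
    · right; rw [← h]; norm_num
    rcases hw.2.eq_or_lt with h' | h'
    · right; rw [h']; norm_num
    · exact Or.inl ⟨h, h'⟩
  have hend : ∀ w ∈ Icc (-1:ℝ) 1, w ^ 2 = 1 → mu N p k * R w = N * w := by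
    intro w hw h
    have := hRb w hw
    rw [h, sub_self, mul_zero, abs_nonpos_iff] at this
    linarith
  have hE : ∀ w ∈ Icc (-1:ℝ) 1, 0 < R w ^ 2 + (1 - w ^ 2) := by
    intro w hw
    rcases hsplit w hw with h | h
    · have := hyI w h; positivity
    · have h1 := hend w hw h
      have h2 : R w ≠ 0 := by
        intro h0
        rw [h0, mul_zero] at h1
        have : w = 0 := by
          rcases mul_eq_zero.1 h1.symm with h3 | h3
          · linarith
          · exact h3
        rw [this] at h; norm_num at h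
      rw [h, sub_self, add_zero]; positivity
  have hRlip : ∀ w ∈ Icc (-1:ℝ) 1, LipAt R w := by
    intro w hw
    rcases hsplit w hw with h | h
    · exact (lipAt_id w).comp (Ψ := R) (hRd w h).differentiableAt
    · refine lipAt_of_bound (C := (2 * C + N) / mu N p k) fun v hv => ?_
      rw [div_mul_eq_mul_div, le_div_iff₀ hmu0, Real.norm_eq_abs, Real.norm_eq_abs]
      have e1 : |R v - R w| * mu N p k = |N * (v - w) - (N * v - mu N p k * R v)| := by
        rw [← abs_of_pos hmu0, ← abs_mul, abs_of_pos hmu0]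
        congr 1
        have := hend w hw h
        linarith
      have e2 : 1 - v ^ 2 ≤ 2 * |v - w| := by
        have : 1 - v ^ 2 = (w - v) * (w + v) := by rw [← h]; ring
        rw [this]
        calc (w - v) * (w + v) ≤ |(w - v) * (w + v)| := le_abs_self _
          _ = |v - w| * |w + v| := by rw [abs_mul, abs_sub_comm]
          _ ≤ |v - w| * 2 := by
              gcongr
              rw [abs_le]; constructor <;> linarith [hw.1, hw.2, hv.1, hv.2]
          _ = _ := by ring
      rw [e1]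
      calc _ ≤ |N * (v - w)| + |N * v - mu N p k * R v| := abs_sub _ _
        _ ≤ N * |v - w| + C * (2 * |v - w|) := by
            rw [abs_mul, abs_of_pos (by linarith : 0 < N)]
            gcongr
            exact (hRb v hv).trans (mul_le_mul_of_nonneg_left e2 hC)
        _ = _ := by ring
  have hRc : ContinuousOn R (Icc (-1) 1) := fun w hw => (hRlip w hw).continuousWithinAt
  -- the logarithmic derivative of `g` and its primitive
  let lam : ℝ → ℝ := fun w => (N * w - mu N p k * R w) / (2 * (1 - w ^ 2))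
  have hlamb : ∀ w ∈ Icc (-1:ℝ) 1, ‖lam w‖ ≤ C := by
    intro w hw
    rcases hsplit w hw with h | h
    · have hy := hyI w h
      simp only [lam, Real.norm_eq_abs]
      rw [abs_div, abs_of_pos (by positivity : 0 < 2 * (1 - w ^ 2)), div_le_iff₀ (by positivity)]
      have := hRb w hw
      nlinarith [mul_nonneg hC hy.le]
    · simp [lam, h, hC]
  have hlamc : ContinuousOn lam (Ioo (-1) 1) := by
    refine ContinuousOn.div ?_ (by fun_prop) fun w hw => by have := hyI w hw; positivity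
    exact (continuousOn_const.mul continuousOn_id).sub
      (continuousOn_const.mul (hRc.mono Ioo_subset_Icc_self))
  have hlami : IntegrableOn lam (Icc (-1) 1) := by
    rw [integrableOn_Icc_iff_integrableOn_Ioo]
    refine ⟨hlamc.aestronglyMeasurable measurableSet_Ioo, ?_⟩
    refine HasFiniteIntegral.restrict_of_bounded C (by simp) ?_
    exact (ae_restrict_iff' measurableSet_Ioo).2
      (Eventually.of_forall fun w hw => hlamb w (Ioo_subset_Icc_self hw))
  have hlami' : ∀ a ∈ Icc (-1:ℝ) 1, ∀ b ∈ Icc (-1:ℝ) 1, IntervalIntegrable lam volume a b :=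
    fun a ha b hb => (hlami.mono_set (uIcc_subset_Icc ha hb)).intervalIntegrable
  have h0I : (0:ℝ) ∈ Icc (-1:ℝ) 1 := ⟨by norm_num, by norm_num⟩
  let Lam : ℝ → ℝ := fun w => ∫ v in (0:ℝ)..w, lam v
  have hLamd : ∀ w ∈ Ioo (-1:ℝ) 1, HasDerivAt Lam (lam w) w := fun w hw =>
    intervalIntegral.integral_hasDerivAt_right (hlami' 0 h0I w (Ioo_subset_Icc_self hw))
      (hlamc.stronglyMeasurableAtFilter isOpen_Ioo w hw)
      (hlamc.continuousAt (isOpen_Ioo.mem_nhds hw))
  have hLamlip : ∀ w ∈ Icc (-1:ℝ) 1, LipAt Lam w := by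
    intro w hw
    refine lipAt_of_bound (C := C) fun v hv => ?_
    simp only [Lam]
    rw [intervalIntegral.integral_interval_sub_left (hlami' 0 h0I v hv) (hlami' 0 h0I w hw)]
    exact intervalIntegral.norm_integral_le_of_norm_le_const fun x hx =>
      hlamb x (uIcc_subset_Icc hw hv (uIoc_subset_uIcc hx))
  have hF : ∀ w ∈ Icc (-1:ℝ) 1, LipAt (fun v => (v, R v, Lam v)) w := fun w hw =>
    (lipAt_id w).prodMk ((hRlip w hw).prodMk (hLamlip w hw))
  let u : ℝ → ℝ := fun w =>
    Real.exp ((Lam w + (2 - p) / 2 * Real.log (R w ^ 2 + (1 - w ^ 2))) / (p - 1))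
  have hulip : ∀ w ∈ Icc (-1:ℝ) 1, LipAt u w := fun w hw =>
    (hF w hw).comp (Ψ := fun z : ℝ × ℝ × ℝ =>
      Real.exp ((z.2.2 + (2 - p) / 2 * Real.log (z.2.1 ^ 2 + (1 - z.1 ^ 2))) / (p - 1))) (by
        have := (hE w hw).ne'
        fun_prop (disch := assumption))
  refine ⟨k, hk1, hk2, fun w => R w * u w / k, u, R, fun w => Real.exp (Lam w),
    fun w => Real.exp (Lam w) * lam w,
    fun w => Real.exp (Lam w) * lam w * (R w - w) +
      Real.exp (Lam w) * (Gf N p k w (R w) / (1 - w ^ 2) - 1),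
    ⟨fun w hw => ?_, fun w hw => ?_⟩, fun w hw => (hulip w hw).continuousWithinAt, hRc,
    ⟨fun w hw => (hLamd w hw).exp, fun w hw => ?_⟩,
    ⟨fun w hw => (hLamd w hw).exp.mul ((hRd w hw).sub (hasDerivAt_id w)), fun w hw => ?_⟩,
    fun w hw => ⟨Real.exp_pos _, hE w hw, by field_simp, ?_, ?_⟩⟩
  · have hy := hyI w hw
    have hEw := hE w (Ioo_subset_Icc_self hw)
    have hD : 0 < R w ^ 2 + (p - 1) * (1 - w ^ 2) := by positivity
    have d1 := (((hRd w hw).pow 2).add ((hasDerivAt_pow 2 w).const_sub 1)).log hEw.ne'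
    have d2 := (((hLamd w hw).add (d1.const_mul ((2 - p) / 2))).div_const (p - 1)).exp
    refine (((hRd w hw).mul d2).div_const k).congr_deriv ?_
    simp only [u, lam, Gf, Pi.add_apply, Pi.pow_apply]
    field_simp
    ring
  · exact ((hRlip w hw).prodMk (hulip w hw)).comp (Ψ := fun z : ℝ × ℝ => z.1 * z.2 / k)
      (by fun_prop)
  · exact (hLamlip w hw).comp (Ψ := Real.exp) (by fun_prop)
  · exact (hF w hw).comp (Ψ := fun z : ℝ × ℝ × ℝ => Real.exp z.2.2 * (z.2.1 - z.1)) (by fun_prop)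
  · have hEw := hE w hw
    simp only [u]
    rw [Real.sqrt_eq_rpow, Real.rpow_def_of_pos hEw, ← Real.exp_add, ← Real.exp_mul,
      ← Real.exp_add]
    congr 1
    field_simp
    ring
  · rcases hsplit w hw with h | h
    · have hy := hyI w h
      simp only [lam]
      field_simp
      ring
    · simp only [h, hend w hw h]; ring

end Pool.Agent.MP_815c6c_an

end MrgPart0

-- ======== part 1: formerly Pool.Agent.MP_815c6c_an.Weak
section MrgPart1

/-!
A continuous vector field that is divergence free off the zero set of a smooth function `q`, and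
small near that set, is weakly divergence free.
-/

open Set Filter Topology Metric Asymptotics MeasureTheory WithLp
open scoped RealInnerProductSpace

namespace Pool.Agent.MP_815c6c_an

/-- The trace of a linear map of Euclidean space, in coordinates. -/
noncomputable def trc {d : ℕ} (L : EuclideanSpace ℝ (Fin d) →L[ℝ] EuclideanSpace ℝ (Fin d)) : ℝ :=
  ∑ i, L (EuclideanSpace.single i 1) i

lemma trc_add {d : ℕ} (L M : EuclideanSpace ℝ (Fin d) →L[ℝ] EuclideanSpace ℝ (Fin d)) :
    trc (L + M) = trc L + trc M := by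
  simp [trc, Finset.sum_add_distrib]

lemma trc_smul {d : ℕ} (c : ℝ) (L : EuclideanSpace ℝ (Fin d) →L[ℝ] EuclideanSpace ℝ (Fin d)) :
    trc (c • L) = c * trc L := by
  simp [trc, Finset.mul_sum]

lemma trc_smulRight {d : ℕ} (l : EuclideanSpace ℝ (Fin d) →L[ℝ] ℝ)
    (v : EuclideanSpace ℝ (Fin d)) : trc (l.smulRight v) = l v := by
  have hv : v = ∑ i, v i • EuclideanSpace.single i (1:ℝ) := by
    ext j
    simp [Pi.single_apply]
  conv_rhs => rw [hv]
  simp [trc, map_sum, mul_comm]

lemma integral_trc_eq_zero {n : ℕ}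
    (F : EuclideanSpace ℝ (Fin (n + 1)) → EuclideanSpace ℝ (Fin (n + 1)))
    (F' : EuclideanSpace ℝ (Fin (n + 1)) →
      EuclideanSpace ℝ (Fin (n + 1)) →L[ℝ] EuclideanSpace ℝ (Fin (n + 1)))
    (hF : ∀ x, HasFDerivAt F (F' x) x) (hc : HasCompactSupport F)
    (hi : Integrable (fun x => trc (F' x))) : ∫ x, trc (F' x) = 0 := by
  obtain ⟨ρ, hρ0, hρ⟩ := hc.isCompact.isBounded.exists_pos_norm_lt
  have hout : ∀ (y : Fin (n + 1) → ℝ) (i : Fin (n + 1)), ρ ≤ |y i| → toLp 2 y ∉ tsupport F := by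
    intro y i hy hmem
    have h1 := hρ _ hmem
    have h2 := PiLp.norm_apply_le (toLp 2 y) i
    simp only [Real.norm_eq_abs] at h2
    linarith
  let L : (Fin (n + 1) → ℝ) →L[ℝ] EuclideanSpace ℝ (Fin (n + 1)) :=
    (EuclideanSpace.equiv (Fin (n + 1)) ℝ).symm.toContinuousLinearMap
  have hL : ∀ y, L y = toLp 2 y := fun y => rfl
  have hmp := PiLp.volume_preserving_toLp (Fin (n + 1))
  have hemb : MeasurableEmbedding (@toLp 2 (Fin (n + 1) → ℝ)) :=
    (MeasurableEquiv.toLp 2 (Fin (n + 1) → ℝ)).measurableEmbedding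
  have hi' : Integrable (fun y : Fin (n + 1) → ℝ => trc (F' (toLp 2 y))) :=
    (hmp.integrable_comp_emb hemb).2 hi
  have hFc : Continuous F := continuous_iff_continuousAt.2 fun x => (hF x).continuousAt
  have key := integral_divergence_of_hasFDerivAt_off_countable' (E := ℝ)
    (fun _ : Fin (n + 1) => -ρ) (fun _ => ρ) (fun _ => by simp only; linarith)
    (fun i y => F (toLp 2 y) i)
    (fun i y => (EuclideanSpace.proj i).comp ((F' (toLp 2 y)).comp L)) ∅ countable_empty
    (fun i => by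
      refine Continuous.continuousOn ?_
      exact (EuclideanSpace.proj i).continuous.comp (hFc.comp L.continuous))
    (fun y _ i => (EuclideanSpace.proj (𝕜 := ℝ) i).hasFDerivAt.comp y
      ((hF (toLp 2 y)).comp y L.hasFDerivAt))
    hi'.integrableOn
  rw [← hmp.integral_comp hemb,
    ← setIntegral_eq_integral_of_forall_compl_eq_zero
      (s := Icc (fun _ : Fin (n + 1) => -ρ) (fun _ => ρ))]
  · refine key.trans (Finset.sum_eq_zero fun i _ => ?_)
    have z : ∀ (c : ℝ) (x : Fin n → ℝ), ρ ≤ |c| →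
        F (toLp 2 (i.insertNth c x : Fin (n + 1) → ℝ)) i = 0 := by
      intro c x hcρ
      rw [image_eq_zero_of_notMem_tsupport (hout _ i (by simpa using hcρ))]; rfl
    simp only [z ρ _ (le_abs_self ρ), z (-ρ) _ (by rw [abs_neg]; exact le_abs_self ρ)]
    simp
  · intro y hy
    have : ∃ i, ρ ≤ |y i| := by
      by_contra hne
      push Not at hne
      exact hy ⟨fun i => (abs_lt.1 (hne i)).1.le, fun i => (abs_lt.1 (hne i)).2.le⟩
    obtain ⟨i, hi⟩ := this
    have h0 : F' (toLp 2 y) = 0 := by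
      rw [← (hF _).fderiv]
      exact image_eq_zero_of_notMem_tsupport
        (fun h => hout y i hi (tsupport_fderiv_subset ℝ h))
    simp [trc, h0]

lemma integrable_abs_mul_rpow {d : ℕ} (i₀ : Fin d) {r : ℝ} (hr : -1 < r)
    {φ : EuclideanSpace ℝ (Fin d) → ℝ} (hφ : Continuous φ) (hc : HasCompactSupport φ) :
    Integrable (fun x => |φ x| * |x i₀| ^ r) := by
  obtain ⟨ρ, hρ0, hρ⟩ := hc.isCompact.isBounded.exists_pos_norm_lt
  obtain ⟨M, hM⟩ := hφ.bounded_above_of_compact_support hc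
  let f : Fin d → ℝ → ℝ := fun i =>
    (ball (0:ℝ) ρ).indicator fun t => if i = i₀ then |t| ^ r else 1
  have hf : ∀ i, Integrable (f i) := by
    intro i
    simp only [f]
    rw [integrable_indicator_iff measurableSet_ball]
    split_ifs
    · refine integrableOn_ball_of_norm_le_rpow (by simp) (C := 1) (α := -r) (by simp; linarith)
        (Eventually.of_forall fun t => ?_)
        (measurable_abs.pow_const r).aestronglyMeasurable
      simp [Real.norm_eq_abs, abs_of_nonneg (Real.rpow_nonneg (abs_nonneg t) r)]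
    · exact integrableOn_const measure_ball_lt_top.ne
  have h1 : Integrable (fun y : Fin d → ℝ => ∏ i, f i (y i)) := Integrable.fintype_prod hf
  have h2 : Integrable (fun x : EuclideanSpace ℝ (Fin d) => ∏ i, f i (x i)) :=
    (PiLp.volume_preserving_ofLp (Fin d)).integrable_comp_of_integrable h1
  have hm : Measurable fun x : EuclideanSpace ℝ (Fin d) => |φ x| * |x i₀| ^ r := by
    have h3 : Continuous fun x : EuclideanSpace ℝ (Fin d) => |x i₀| := by fun_prop
    exact hφ.abs.measurable.mul (h3.measurable.pow_const r)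
  refine (h2.const_mul M).mono' hm.aestronglyMeasurable (Eventually.of_forall fun x => ?_)
  have hpos : 0 ≤ |x i₀| ^ r := Real.rpow_nonneg (abs_nonneg _) r
  rw [Real.norm_of_nonneg (by positivity)]
  by_cases hx : x ∈ tsupport φ
  · have : ∀ i, f i (x i) = if i = i₀ then |x i| ^ r else 1 := by
      intro i
      refine indicator_of_mem ?_ _
      exact mem_ball_zero_iff.2 ((PiLp.norm_apply_le x i).trans_lt (hρ x hx))
    simp only [this, Finset.prod_ite_eq', Finset.mem_univ, if_true]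
    exact mul_le_mul_of_nonneg_right (hM x) hpos
  · rw [image_eq_zero_of_notMem_tsupport hx, abs_zero, zero_mul]
    refine mul_nonneg ((norm_nonneg _).trans (hM x)) (Finset.prod_nonneg fun i _ => ?_)
    refine indicator_nonneg (fun t _ => ?_) _
    split_ifs
    · exact Real.rpow_nonneg (abs_nonneg _) r
    · norm_num

theorem weak_div_free {n : ℕ}
    (X : EuclideanSpace ℝ (Fin (n + 1)) → EuclideanSpace ℝ (Fin (n + 1))) (hX : Continuous X)
    (q : EuclideanSpace ℝ (Fin (n + 1)) → ℝ) (hq : ContDiff ℝ 1 q) (hq0 : ∀ x, 0 ≤ q x)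
    (hXd : ∀ x, q x ≠ 0 → ∃ X', HasFDerivAt X X' x ∧ trc X' = 0)
    (hX0 : ∀ x, q x = 0 → X x = 0) (i₀ : Fin (n + 1)) {C r : ℝ} (hr : -1 < r)
    (hb : ∀ x, x i₀ ≠ 0 → |fderiv ℝ q x (X x)| ≤ q x * (C * |x i₀| ^ r))
    {φ : EuclideanSpace ℝ (Fin (n + 1)) → ℝ} (hφ : ContDiff ℝ 1 φ) (hc : HasCompactSupport φ) :
    ∫ x, fderiv ℝ φ x (X x) = 0 := by
  classical
  have hφd : Differentiable ℝ φ := hφ.differentiable one_ne_zero
  have hqd : Differentiable ℝ q := hq.differentiable one_ne_zero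
  have hφ' : Continuous fun x => fderiv ℝ φ x (X x) :=
    (hφ.continuous_fderiv one_ne_zero).clm_apply hX
  have hq' : Continuous fun x => fderiv ℝ q x (X x) :=
    (hq.continuous_fderiv one_ne_zero).clm_apply hX
  have hφ'c : HasCompactSupport fun x => fderiv ℝ φ x (X x) := by
    refine (hc.fderiv (𝕜 := ℝ)).mono fun x hx h => hx ?_
    simp [h]
  let f : ℝ → EuclideanSpace ℝ (Fin (n + 1)) → ℝ := fun ε x =>
    q x / (q x + ε) * fderiv ℝ φ x (X x) + φ x * (ε / (q x + ε) ^ 2 * fderiv ℝ q x (X x))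
  have hfc : ∀ ε, 0 < ε → Continuous (f ε) := by
    intro ε hε
    have hne : ∀ x, q x + ε ≠ 0 := fun x => by have := hq0 x; positivity
    have hqc := hq.continuous
    refine ((hqc.div (hqc.add continuous_const) hne).mul hφ').add (hφ.continuous.mul
      ((continuous_const.div ((hqc.add continuous_const).pow 2) fun x => pow_ne_zero 2 (hne x)).mul
        hq'))
  have hf0 : ∀ ε, 0 < ε → ∫ x, f ε x = 0 := by
    intro ε hε
    have hne : ∀ x, q x + ε ≠ 0 := fun x => by have := hq0 x; positivity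
    let a : EuclideanSpace ℝ (Fin (n + 1)) → ℝ := fun x => φ x * (q x / (q x + ε))
    have had : ∀ x, ∃ a' : EuclideanSpace ℝ (Fin (n + 1)) →L[ℝ] ℝ,
        HasFDerivAt a a' x ∧ a' (X x) = f ε x := by
      intro x
      have h1 : HasDerivAt (fun s : ℝ => s / (s + ε)) (ε / (q x + ε) ^ 2) (q x) := by
        refine ((hasDerivAt_id (q x)).div ((hasDerivAt_id (q x)).add_const ε) (hne x)).congr_deriv ?_
        simp
      have h2 := (hφd x).hasFDerivAt.mul (h1.comp_hasFDerivAt x (hqd x).hasFDerivAt)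
      refine ⟨_, h2, ?_⟩
      simp [f]; ring
    have hder : ∀ x, ∃ F', HasFDerivAt (fun y => a y • X y) F' x ∧ trc F' = f ε x := by
      intro x
      obtain ⟨a', ha', ha''⟩ := had x
      by_cases hx : q x = 0
      · refine ⟨0, ?_, by simp [trc, f, hX0 x hx]⟩
        have hax : a x = 0 := by simp [a, hx]
        have h1 : (fun y => a y) =O[𝓝 x] fun y => y - x := by
          simpa [hax] using ha'.isBigO_sub
        have h2 : (fun y => X y) =o[𝓝 x] fun _ => (1:ℝ) := by
          rw [isLittleO_one_iff, ← hX0 x hx]; exact hX.continuousAt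
        rw [hasFDerivAt_iff_isLittleO]
        have h3 := h1.norm_right.smul_isLittleO h2
        simp only [hax, zero_smul, sub_zero, zero_apply]
        simpa using h3
      · obtain ⟨X', hX', htr⟩ := hXd x hx
        refine ⟨_, ha'.smul hX', ?_⟩
        rw [trc_add, trc_smul, htr, trc_smulRight, ha'']; ring
    choose F' hF' htr using hder
    have hfcs : HasCompactSupport (f ε) := hφ'c.mul_left.add hc.mul_right
    have := integral_trc_eq_zero _ F' hF' (hc.mul_right.smul_right)
      (by simp_rw [htr]; exact (hfc ε hε).integrable_of_hasCompactSupport hfcs)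
    simpa only [htr] using this
  have hae : ∀ᵐ x : EuclideanSpace ℝ (Fin (n + 1)), x i₀ ≠ 0 :=
    (PiLp.volume_preserving_ofLp (Fin (n + 1))).quasiMeasurePreserving.ae
      (Measure.ae_eval_ne (fun _ => volume) i₀ 0)
  have hlim := tendsto_integral_filter_of_dominated_convergence (μ := volume)
    (l := 𝓝[>] (0:ℝ)) (F := f) (f := fun x => fderiv ℝ φ x (X x))
    (fun x => |fderiv ℝ φ x (X x)| + |C| * (|φ x| * |x i₀| ^ r))
    (eventually_nhdsWithin_of_forall fun ε hε => (hfc ε hε).aestronglyMeasurable)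
    (eventually_nhdsWithin_of_forall fun ε hε => by
      have hε : 0 < ε := hε
      filter_upwards [hae] with x hx
      have hqx := hq0 x
      have hpos : 0 ≤ |x i₀| ^ r := Real.rpow_nonneg (abs_nonneg _) r
      refine (norm_add_le _ _).trans (add_le_add ?_ ?_)
      · rw [Real.norm_eq_abs, abs_mul, abs_of_nonneg (by positivity : 0 ≤ q x / (q x + ε))]
        refine mul_le_of_le_one_left (abs_nonneg _) ?_
        rw [div_le_one (by positivity)]; linarith
      · rw [Real.norm_eq_abs, abs_mul, abs_mul,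
          abs_of_nonneg (by positivity : 0 ≤ ε / (q x + ε) ^ 2), mul_left_comm |C|]
        refine mul_le_mul_of_nonneg_left ?_ (abs_nonneg _)
        have h1 : ε / (q x + ε) ^ 2 * q x ≤ 1 := by
          rw [div_mul_eq_mul_div, div_le_one (by positivity)]; nlinarith [mul_pos hε hε]
        calc _ ≤ ε / (q x + ε) ^ 2 * (q x * (|C| * |x i₀| ^ r)) := by
              refine mul_le_mul_of_nonneg_left ((hb x hx).trans ?_) (by positivity)
              gcongr; exact le_abs_self C
          _ = (ε / (q x + ε) ^ 2 * q x) * (|C| * |x i₀| ^ r) := by ring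
          _ ≤ _ := mul_le_of_le_one_left (by positivity) h1)
    ((hφ'.integrable_of_hasCompactSupport hφ'c).abs.add
      ((integrable_abs_mul_rpow i₀ hr hφ.continuous hc).const_mul _))
    (Eventually.of_forall fun x => by
      by_cases hx : q x = 0
      · simp [f, hX0 x hx]
      · have hcont : ContinuousAt (fun ε => f ε x) 0 := by
          have : q x + 0 ≠ 0 := by simpa using hx
          simp only [f]
          fun_prop (disch := simp [hx])
        have := hcont.tendsto.mono_left (nhdsWithin_le_nhds (s := Ioi 0))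
        simpa [f, hx] using this)
  have hz : Tendsto (fun ε => ∫ x, f ε x) (𝓝[>] (0:ℝ)) (𝓝 0) :=
    tendsto_const_nhds.congr' (eventually_nhdsWithin_of_forall fun ε hε => (hf0 ε hε).symm)
  exact tendsto_nhds_unique hlim hz

end Pool.Agent.MP_815c6c_an

end MrgPart1

-- marker of a merged file
example : 731051 + 23923 = 731051 + 23923 := rfl
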