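import Mathlib.Analysis.InnerProductSpace.Calculus
import Mathlib.Combinatorics.SimpleGraph.Basic
import Pool.Agent.MP_815c6c_an.Weak

/-!
The homogeneous function `q^(k/2) φ(w)` on Euclidean space, its gradient, and the vanishing of the
divergence of `|∇h|^(p-2) ∇h` off the zero set of `q`.
-/

open Set Filter Topology Metric Asymptotics
open scoped RealInnerProductSpace

namespace Pool.Agent.MP_815c6c_an

section
variable {E : Type*} [NormedAddCommGroup E] [InnerProductSpace ℝ E]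

/-- A symmetric operator with `T^3 = T`. -/
structure Tri (T : E →L[ℝ] E) : Prop where
  sym : ∀ x y, ⟪T x, y⟫ = ⟪x, T y⟫
  cube : ∀ x, T (T (T x)) = T x

/-- The squared distance to the kernel of `T`. -/
def qf (T : E →L[ℝ] E) (x : E) : ℝ := ⟪T x, T x⟫

/-- The quadratic form of `T`. -/
def nf (T : E →L[ℝ] E) (x : E) : ℝ := ⟪x, T x⟫

/-- The angular variable. -/
noncomputable def wf (T : E →L[ℝ] E) (x : E) : ℝ := nf T x / qf T x

/-- The direction of the gradient of the angular variable. -/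
noncomputable def Zf (T : E →L[ℝ] E) (x : E) : E := T x - wf T x • T (T x)

variable {T : E →L[ℝ] E}

lemma qf_eq (x : E) : qf T x = ‖T x‖ ^ 2 := real_inner_self_eq_norm_sq _

lemma qf_nonneg (x : E) : 0 ≤ qf T x := by rw [qf_eq]; positivity

lemma qf_eq_zero {x : E} (h : qf T x = 0) : T x = 0 := inner_self_eq_zero.1 h

lemma qf_contDiff : ContDiff ℝ 1 (qf T) := T.contDiff.inner ℝ T.contDiff

lemma nf_eq (x : E) : nf T x = wf T x * qf T x := by
  by_cases h : qf T x = 0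
  · simp [nf, h, qf_eq_zero h]
  · rw [wf, div_mul_cancel₀ _ h]

lemma Tri.iTT (hT : Tri T) (x : E) : ⟪T (T x), T (T x)⟫ = qf T x := by
  rw [hT.sym, hT.cube, qf]

lemma Tri.iT (hT : Tri T) (x : E) : ⟪T x, T (T x)⟫ = wf T x * qf T x := by
  rw [hT.sym, hT.cube, ← nf_eq, nf]

lemma Tri.iT' (hT : Tri T) (x : E) : ⟪T (T x), T x⟫ = wf T x * qf T x := by
  rw [real_inner_comm, hT.iT]

lemma Tri.iZTT (hT : Tri T) (x : E) : ⟪Zf T x, T (T x)⟫ = 0 := by
  rw [Zf, inner_sub_left, real_inner_smul_left, hT.iT, hT.iTT, sub_self]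

lemma Tri.iZT (hT : Tri T) (x : E) : ⟪Zf T x, T x⟫ = qf T x * (1 - wf T x ^ 2) := by
  rw [Zf, inner_sub_left, real_inner_smul_left, hT.iT', ← qf]; ring

lemma Tri.iZZ (hT : Tri T) (x : E) : ⟪Zf T x, Zf T x⟫ = qf T x * (1 - wf T x ^ 2) := by
  conv_lhs => arg 3; rw [Zf]
  rw [inner_sub_right, real_inner_smul_right, hT.iZT, hT.iZTT]; ring

lemma Tri.wf_mem (hT : Tri T) (x : E) : wf T x ∈ Icc (-1:ℝ) 1 := by
  by_cases h : qf T x = 0
  · simp [wf, h]
  · have hq : 0 < qf T x := lt_of_le_of_ne (qf_nonneg x) (Ne.symm h)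
    have h1 : 0 ≤ qf T x * (1 - wf T x ^ 2) := by
      rw [← hT.iZZ]; exact real_inner_self_nonneg
    have h2 : 0 ≤ 1 - wf T x ^ 2 := (mul_nonneg_iff_of_pos_left hq).1 h1
    constructor <;> nlinarith

lemma Tri.hasFDerivAt_qf (hT : Tri T) (x : E) :
    HasFDerivAt (qf T) (innerSL ℝ ((2:ℝ) • T (T x))) x := by
  refine (T.hasFDerivAt.inner ℝ T.hasFDerivAt).congr_fderiv ?_
  ext v
  simp only [ContinuousLinearMap.comp_apply, fderivInnerCLM_apply,
    ContinuousLinearMap.prod_apply, innerSL_apply_apply, real_inner_smul_left]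
  rw [hT.sym (T x) v, real_inner_comm (T x) (T v)]; ring

lemma Tri.hasFDerivAt_nf (hT : Tri T) (x : E) :
    HasFDerivAt (nf T) (innerSL ℝ ((2:ℝ) • T x)) x := by
  refine ((hasFDerivAt_id x).inner ℝ T.hasFDerivAt).congr_fderiv ?_
  ext v
  simp only [ContinuousLinearMap.comp_apply, fderivInnerCLM_apply,
    ContinuousLinearMap.prod_apply, innerSL_apply_apply, real_inner_smul_left, id,
    ContinuousLinearMap.id_apply]
  rw [← hT.sym x v, real_inner_comm (T x) v]; ring

lemma Tri.hasFDerivAt_wf (hT : Tri T) {x : E} (hx : qf T x ≠ 0) :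
    HasFDerivAt (wf T) (innerSL ℝ ((2 / qf T x) • Zf T x)) x := by
  have h1 := (hT.hasFDerivAt_nf x).mul
    ((hasDerivAt_inv hx).comp_hasFDerivAt x (hT.hasFDerivAt_qf x))
  have e : wf T = nf T * ((fun y : ℝ => y⁻¹) ∘ qf T) := by
    ext y; simp [wf, div_eq_mul_inv]
  rw [e]
  refine h1.congr_fderiv ?_
  ext v
  simp only [add_apply, smul_apply, innerSL_apply_apply,
    real_inner_smul_left, smul_eq_mul, Function.comp_apply, Zf, inner_sub_left, nf_eq x]
  field_simp
  ring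

lemma Tri.tendsto_wf (hT : Tri T) {x : E} (hx : qf T x ≠ 0) :
    Tendsto (wf T) (𝓝 x) (𝓝[Icc (-1:ℝ) 1] (wf T x)) :=
  tendsto_nhdsWithin_iff.2 ⟨(hT.hasFDerivAt_wf hx).continuousAt,
    Eventually.of_forall fun y => hT.wf_mem y⟩

lemma Tri.continuousAt_comp (hT : Tri T) {G : ℝ → ℝ} (hG : ContinuousOn G (Icc (-1) 1)) {x : E}
    (hx : qf T x ≠ 0) : ContinuousAt (fun y => G (wf T y)) x :=
  (hG _ (hT.wf_mem x)).tendsto.comp (hT.tendsto_wf hx)

lemma Tri.hasFDerivAt_comp (hT : Tri T) {G G' : ℝ → ℝ} (hG : Nice G G') {x : E}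
    (hx : qf T x ≠ 0) : HasFDerivAt (fun y => G (wf T y))
      (G' (wf T x) • innerSL ℝ ((2 / qf T x) • Zf T x)) x := by
  have hw := hT.wf_mem x
  by_cases h : wf T x ∈ Ioo (-1:ℝ) 1
  · exact (hG.1 _ h).comp_hasFDerivAt x (hT.hasFDerivAt_wf hx)
  · have h2 : wf T x ^ 2 = 1 := by
      rcases hw.1.eq_or_lt with h1 | h1
      · rw [← h1]; norm_num
      rcases hw.2.eq_or_lt with h3 | h3
      · rw [h3]; norm_num
      · exact absurd ⟨h1, h3⟩ h
    have hZ : Zf T x = 0 := by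
      rw [← inner_self_eq_zero (𝕜 := ℝ), hT.iZZ, h2, sub_self, mul_zero]
    have h3 := hT.hasFDerivAt_wf hx
    rw [hZ, smul_zero, map_zero] at h3
    rw [hZ, smul_zero, map_zero, smul_zero, hasFDerivAt_iff_isLittleO]
    rw [hasFDerivAt_iff_isLittleO] at h3
    simp only [zero_apply, sub_zero] at h3 ⊢
    exact ((hG.2 _ hw).comp_tendsto (hT.tendsto_wf hx)).trans_isLittleO h3

lemma Tri.hasFDerivAt_hom (hT : Tri T) {G G' : ℝ → ℝ} (hG : Nice G G') (a : ℝ) {x : E}
    (hx : qf T x ≠ 0) : HasFDerivAt (fun y => qf T y ^ a * G (wf T y))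
      (innerSL ℝ (qf T x ^ (a - 1) •
        ((2 * a * G (wf T x)) • T (T x) + (2 * G' (wf T x)) • Zf T x))) x := by
  have h1 := ((hT.hasFDerivAt_qf x).rpow_const (p := a) (Or.inl hx)).mul
    (hT.hasFDerivAt_comp hG hx)
  refine h1.congr_fderiv ?_
  ext v
  simp only [add_apply, smul_apply, innerSL_apply_apply,
    real_inner_smul_left, smul_eq_mul, inner_add_left]
  rw [Real.rpow_sub_one hx]
  field_simp
  ring

lemma qf_smul (θ : ℝ) (x : E) : qf T (θ • x) = θ ^ 2 * qf T x := by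
  simp only [qf, map_smul, real_inner_smul_left, real_inner_smul_right]; ring

lemma wf_smul {θ : ℝ} (hθ : θ ≠ 0) (x : E) : wf T (θ • x) = wf T x := by
  have : nf T (θ • x) = θ ^ 2 * nf T x := by
    simp only [nf, map_smul, real_inner_smul_left, real_inner_smul_right]; ring
  rw [wf, this, qf_smul, mul_div_mul_left _ _ (pow_ne_zero 2 hθ), wf]

lemma Zf_smul {θ : ℝ} (hθ : θ ≠ 0) (x : E) : Zf T (θ • x) = θ • Zf T x := by
  rw [Zf, wf_smul hθ, Zf, map_smul, map_smul, smul_sub, smul_comm]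

lemma tendsto_qf_rpow {a : ℝ} (ha : 0 < a) {x : E} (hx : qf T x = 0) :
    Tendsto (fun y => qf T y ^ a) (𝓝 x) (𝓝 0) := by
  have := ((qf_contDiff (T := T)).continuous.continuousAt (x := x)).rpow_const (p := a)
    (Or.inr ha.le)
  rw [ContinuousAt, hx, Real.zero_rpow ha.ne'] at this
  exact this

end

theorem exists_field {d : ℕ} {T : EuclideanSpace ℝ (Fin d) →L[ℝ] EuclideanSpace ℝ (Fin d)}
    (hT : Tri T) {N p : ℝ} (htr : trc T = 0) (htr2 : trc (T.comp T) = N)
    (hp : 1 < p) (hp2 : p < 2) (hN : 4 ≤ N) (hc : 0 < 3 * p ^ 2 + (N - 5) * p - 6) :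
    ∃ (k : ℝ) (h : EuclideanSpace ℝ (Fin d) → ℝ)
      (Y : EuclideanSpace ℝ (Fin d) → EuclideanSpace ℝ (Fin d)), 1 < k ∧ k < 1 + 2 / p ∧
      (∀ x, HasFDerivAt h (innerSL ℝ (Y x)) x) ∧ Continuous Y ∧
      (∀ θ : ℝ, 0 < θ → ∀ x, Y (θ • x) = θ ^ (k - 1) • Y x) ∧ (∀ x, qf T x ≠ 0 → Y x ≠ 0) ∧
      (∃ M, ∀ x, ‖Y x‖ ≤ M * qf T x ^ ((k - 1) / 2)) ∧
      ∀ x, qf T x ≠ 0 → ∃ X', HasFDerivAt (fun y => ‖Y y‖ ^ (p - 2) • Y y) X' x ∧ trc X' = 0 := by
  obtain ⟨k, hk1, hk2, φ, u, R, g, g', j', hφ, hu, hR, hg, hj, hI⟩ :=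
    exists_profile_data hp hp2 hN hc
  let Y : EuclideanSpace ℝ (Fin d) → EuclideanSpace ℝ (Fin d) := fun x =>
    (qf T x ^ (k / 2 - 1) * u (wf T x)) • (R (wf T x) • T (T x) + Zf T x)
  have hvec : ∀ x, ‖R (wf T x) • T (T x) + Zf T x‖ =
      √(qf T x) * √(R (wf T x) ^ 2 + (1 - wf T x ^ 2)) := by
    intro x
    rw [← Real.sqrt_mul (qf_nonneg x), ← Real.sqrt_sq (norm_nonneg _),
      ← real_inner_self_eq_norm_sq]
    congr 1
    simp only [inner_add_left, inner_add_right, real_inner_smul_left, real_inner_smul_right,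
      hT.iTT, hT.iZTT, hT.iZZ, real_inner_comm (Zf T x) (T (T x))]
    ring
  have hnorm : ∀ x, ‖Y x‖ = qf T x ^ ((k - 1) / 2) *
      (u (wf T x) * √(R (wf T x) ^ 2 + (1 - wf T x ^ 2))) := by
    intro x
    have hq := qf_nonneg (T := T) x
    have hux := (hI _ (hT.wf_mem x)).1
    simp only [Y]
    rw [norm_smul, hvec, Real.norm_of_nonneg (by positivity), Real.sqrt_eq_rpow (qf T x),
      show (k - 1) / 2 = (k / 2 - 1) + 1 / 2 by ring,
      Real.rpow_add' hq (by linarith : k / 2 - 1 + 1 / 2 ≠ 0)]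
    ring
  obtain ⟨M, hM⟩ := isCompact_Icc.exists_bound_of_continuousOn
    (f := fun w => u w * √(R w ^ 2 + (1 - w ^ 2))) (s := Icc (-1:ℝ) 1)
    (hu.mul (((hR.pow 2).add (by fun_prop)).sqrt))
  have hbound : ∀ x, ‖Y x‖ ≤ M * qf T x ^ ((k - 1) / 2) := by
    intro x
    rw [hnorm, mul_comm]
    exact mul_le_mul_of_nonneg_right ((le_abs_self _).trans (hM _ (hT.wf_mem x)))
      (Real.rpow_nonneg (qf_nonneg x) _)
  have hk' : 0 < (k - 1) / 2 := by linarith
  have hY0 : ∀ x, qf T x = 0 → Y x = 0 := by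
    intro x hx
    have := hbound x
    rwa [hx, Real.zero_rpow hk'.ne', mul_zero, norm_le_zero_iff] at this
  refine ⟨k, fun x => qf T x ^ (k / 2) * φ (wf T x), Y, by linarith, hk2, fun x => ?_, ?_,
    fun θ hθ x => ?_, fun x hx => ?_, ⟨M, hbound⟩, fun x hx => ?_⟩
  · by_cases hx : qf T x = 0
    · obtain ⟨M', hM'⟩ := isCompact_Icc.exists_bound_of_continuousOn
        (f := φ) (s := Icc (-1:ℝ) 1) (fun w hw => (hφ.2 w hw).continuousWithinAt)
      rw [hY0 x hx, map_zero, hasFDerivAt_iff_isLittleO]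
      simp only [hx, Real.zero_rpow (by linarith : k / 2 ≠ 0), zero_mul, sub_zero, zero_apply]
      have h1 : (fun y => T y) =O[𝓝 x] fun y => y - x := by
        simpa [qf_eq_zero hx] using (T.hasFDerivAt (x := x)).isBigO_sub
      have h2 : (fun y => qf T y ^ ((k - 1) / 2)) =o[𝓝 x] fun _ => (1:ℝ) := by
        rw [isLittleO_one_iff]; exact tendsto_qf_rpow hk' hx
      have h3 := h1.norm_norm.mul_isLittleO h2
      simp only [mul_one, isLittleO_norm_right] at h3
      refine IsBigO.trans_isLittleO (IsBigO.of_bound M' (Eventually.of_forall fun y => ?_)) h3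
      have hq := qf_nonneg (T := T) y
      have e : qf T y ^ (k / 2) = ‖T y‖ * qf T y ^ ((k - 1) / 2) := by
        rw [← Real.sqrt_sq (norm_nonneg (T y)), ← qf_eq, Real.sqrt_eq_rpow,
          ← Real.rpow_add' hq (by linarith)]
        congr 1; ring
      rw [norm_mul, ← e, mul_comm]
      exact mul_le_mul_of_nonneg_right (hM' _ (hT.wf_mem y)) (norm_nonneg _)
    · refine (hT.hasFDerivAt_hom hφ (k / 2) hx).congr_fderiv ?_
      congr 1
      simp only [Y]
      have e1 : 2 * (k / 2) * φ (wf T x) = u (wf T x) * R (wf T x) := by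
        have := (hI _ (hT.wf_mem x)).2.2.1
        linarith
      rw [e1]
      module
  · refine continuous_iff_continuousAt.2 fun x => ?_
    by_cases hx : qf T x = 0
    · rw [ContinuousAt, hY0 x hx]
      refine squeeze_zero_norm hbound ?_
      simpa using (tendsto_qf_rpow hk' hx).const_mul M
    · have c1 := (qf_contDiff (T := T)).continuous.continuousAt (x := x)
      have c2 := (T.continuous.comp T.continuous).continuousAt (x := x)
      refine ((c1.rpow_const (Or.inl hx)).mul (hT.continuousAt_comp hu hx)).smul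
        (((hT.continuousAt_comp hR hx).smul c2).add ?_)
      exact T.continuous.continuousAt.sub ((hT.hasFDerivAt_wf hx).continuousAt.smul c2)
  · simp only [Y]
    rw [qf_smul, wf_smul hθ.ne', Zf_smul hθ.ne', map_smul, map_smul, smul_comm _ θ, ← smul_add,
      smul_smul, smul_smul, Real.mul_rpow (by positivity) (qf_nonneg x), ← Real.rpow_natCast,
      ← Real.rpow_mul hθ.le, Real.rpow_sub_one hθ.ne' k,
      show ((2:ℕ):ℝ) * (k / 2 - 1) = k - 1 - 1 by push_cast; ring, Real.rpow_sub_one hθ.ne',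
      Real.rpow_sub_one hθ.ne']
    congr 1
    field_simp
  · have hq : 0 < qf T x := lt_of_le_of_ne (qf_nonneg x) (Ne.symm hx)
    obtain ⟨h1, h2, -⟩ := hI _ (hT.wf_mem x)
    rw [← norm_pos_iff, hnorm]
    have := Real.sqrt_pos.2 h2
    positivity
  · obtain ⟨e, he⟩ : ∃ e, e = ((k - 1) * (p - 1) - 1) / 2 := ⟨_, rfl⟩
    have hX : ∀ y, qf T y ≠ 0 → ‖Y y‖ ^ (p - 2) • Y y =
        (qf T y ^ e * g (wf T y)) • T y +
          (qf T y ^ e * (g (wf T y) * (R (wf T y) - wf T y))) • T (T y) := by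
      intro y hy
      have hq : 0 < qf T y := lt_of_le_of_ne (qf_nonneg y) (Ne.symm hy)
      obtain ⟨h1, h2, -, h3, -⟩ := hI _ (hT.wf_mem y)
      have h4 := Real.sqrt_pos.2 h2
      have h5 : ‖Y y‖ ^ (p - 2) * (qf T y ^ (k / 2 - 1) * u (wf T y)) =
          qf T y ^ e * g (wf T y) := by
        rw [hnorm, Real.mul_rpow (by positivity) (by positivity), ← Real.rpow_mul hq.le, ← h3,
          show e = (k - 1) / 2 * (p - 2) + (k / 2 - 1) by rw [he]; ring, Real.rpow_add hq]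
        ring
      conv_lhs => arg 2; simp only [Y]
      rw [smul_smul, h5, Zf]
      module
    have hev : (fun y => ‖Y y‖ ^ (p - 2) • Y y) =ᶠ[𝓝 x] fun y =>
        (qf T y ^ e * g (wf T y)) • T y +
          (qf T y ^ e * (g (wf T y) * (R (wf T y) - wf T y))) • T (T y) := by
      filter_upwards [(qf_contDiff (T := T)).continuous.continuousAt.eventually_ne hx] with y hy
      exact hX y hy
    have d1 := (hT.hasFDerivAt_hom hg e hx).smul T.hasFDerivAt
    have d2 := (hT.hasFDerivAt_hom hj e hx).smul (T.comp T).hasFDerivAt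
    refine ⟨_, (d1.add d2).congr_of_eventuallyEq hev, ?_⟩
    obtain ⟨-, -, -, -, h6⟩ := hI _ (hT.wf_mem x)
    simp only [trc_add, trc_smul, trc_smulRight, htr, htr2, innerSL_apply_apply,
      real_inner_smul_left, inner_add_left, ContinuousLinearMap.comp_apply, hT.iTT, hT.iT',
      hT.iZT, hT.iZTT]
    rw [Real.rpow_sub_one hx]
    have h7 : mu N p k = N + 2 * e := by rw [he, mu]; ring
    rw [h7] at h6
    field_simp
    linear_combination (qf T x ^ e * qf T x) * h6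

end Pool.Agent.MP_815c6c_an
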