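import Mathlib.RingTheory.Flat.TorsionFree
import Mathlib.Algebra.Order.Archimedean.Real.Hom
import Mathlib.MeasureTheory.Measure.Haar.NormedSpace
import Mathlib.Analysis.Calculus.Gradient.Basic
import Mathlib.RingTheory.PiTensorProduct
import Mathlib.RingTheory.SimpleRing.Principal
import Pool.Agent.MP_815c6c_an.Field

-- ======== part 0: formerly Pool.Agent.MP_815c6c_an.Homog
section MrgPart0

/-!
A continuous nonzero field that is positively homogeneous of a degree in `(0,1)` has no `C^1`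
representative near the origin, and its mean oscillation on centred balls does not decay linearly.
-/

open Set Filter Topology Metric Asymptotics MeasureTheory

namespace Pool.Agent.MP_815c6c_an

variable {d : ℕ}

lemma setAverage_ball_smul {F : Type*} [NormedAddCommGroup F] [NormedSpace ℝ F]
    (f : EuclideanSpace ℝ (Fin d) → F) {θ : ℝ} (hθ : 0 < θ) (ρ : ℝ) :
    ⨍ x in ball (0 : EuclideanSpace ℝ (Fin d)) (θ * ρ), f x =
      ⨍ x in ball (0 : EuclideanSpace ℝ (Fin d)) ρ, f (θ • x) := by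
  rw [setAverage_eq, setAverage_eq, Measure.setIntegral_comp_smul_of_pos _ _ _ hθ,
    _root_.smul_ball hθ.ne', smul_zero, Real.norm_eq_abs, abs_of_pos hθ, smul_smul]
  congr 1
  rw [measureReal_def, Measure.addHaar_ball_mul_of_pos _ _ hθ, ENNReal.toReal_mul,
    ENNReal.toReal_ofReal (by positivity), mul_inv, mul_comm, measureReal_def]

lemma false_of_le_mul_rpow {a c s : ℝ} (ha : 0 < a) (hs : 0 < s)
    (h : ∀ᶠ θ in 𝓝[>] (0:ℝ), a ≤ c * θ ^ s) : False := by
  have h1 : Tendsto (fun θ : ℝ => c * θ ^ s) (𝓝 0) (𝓝 (c * (0:ℝ) ^ s)) :=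
    ((Real.continuousAt_rpow_const 0 s (Or.inr hs.le)).tendsto).const_mul c
  rw [Real.zero_rpow hs.ne', mul_zero] at h1
  have := ge_of_tendsto (h1.mono_left nhdsWithin_le_nhds) h
  linarith

section
variable {V : EuclideanSpace ℝ (Fin d) → EuclideanSpace ℝ (Fin d)} {β : ℝ}

lemma homog_zero (hβ0 : 0 < β) (hV : ∀ θ : ℝ, 0 < θ → ∀ x, V (θ • x) = θ ^ β • V x) :
    V 0 = 0 := by
  have h := hV 2 (by norm_num) 0
  rw [smul_zero] at h
  have h2 : (1:ℝ) < 2 ^ β := Real.one_lt_rpow (by norm_num) hβ0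
  have h3 : ((2:ℝ) ^ β - 1) • V 0 = 0 := by rw [sub_smul, ← h, one_smul, sub_self]
  exact (smul_eq_zero.1 h3).resolve_left (by linarith)

lemma homog_not_differentiableAt (hβ0 : 0 < β) (hβ1 : β < 1)
    (hV : ∀ θ : ℝ, 0 < θ → ∀ x, V (θ • x) = θ ^ β • V x) {x₀ : EuclideanSpace ℝ (Fin d)}
    (hx₀ : V x₀ ≠ 0) : ¬ DifferentiableAt ℝ V 0 := by
  intro hd
  obtain ⟨C, hC⟩ := hd.isBigO_sub.bound
  have ht : Tendsto (fun θ : ℝ => θ • x₀) (𝓝[>] 0) (𝓝 0) := by
    have : Tendsto (fun θ : ℝ => θ • x₀) (𝓝 0) (𝓝 ((0:ℝ) • x₀)) :=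
      (continuous_id.smul continuous_const).tendsto 0
    rw [zero_smul] at this
    exact this.mono_left nhdsWithin_le_nhds
  refine false_of_le_mul_rpow (a := ‖V x₀‖) (c := C * ‖x₀‖) (s := 1 - β) (norm_pos_iff.2 hx₀)
    (by linarith) ?_
  filter_upwards [ht.eventually hC, self_mem_nhdsWithin] with θ h1 hθ
  have hθ : 0 < θ := hθ
  have hθβ : 0 < θ ^ β := Real.rpow_pos_of_pos hθ β
  rw [homog_zero hβ0 hV, sub_zero, sub_zero, hV θ hθ, norm_smul, norm_smul, Real.norm_eq_abs,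
    Real.norm_eq_abs, abs_of_pos hθ, abs_of_pos hθβ] at h1
  rw [Real.rpow_sub hθ, Real.rpow_one, ← mul_div_assoc, le_div_iff₀ hθβ]
  linarith

lemma homog_no_C1 (hβ0 : 0 < β) (hβ1 : β < 1) (hc : Continuous V)
    (hV : ∀ θ : ℝ, 0 < θ → ∀ x, V (θ • x) = θ ^ β • V x) {x₀ : EuclideanSpace ℝ (Fin d)}
    (hx₀ : V x₀ ≠ 0) {Ω : Set (EuclideanSpace ℝ (Fin d))} (hΩ : IsOpen Ω) (h0 : 0 ∈ Ω) :
    ¬ ∃ W : EuclideanSpace ℝ (Fin d) → EuclideanSpace ℝ (Fin d),
      ContDiffOn ℝ 1 W Ω ∧ W =ᵐ[volume.restrict Ω] V := by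
  rintro ⟨W, hW, hWV⟩
  have he : EqOn W V Ω := Measure.eqOn_open_of_ae_eq hWV hΩ hW.continuousOn hc.continuousOn
  have hd : DifferentiableAt ℝ W 0 :=
    (hW.differentiableOn one_ne_zero).differentiableAt (hΩ.mem_nhds h0)
  exact homog_not_differentiableAt hβ0 hβ1 hV hx₀
    (hd.congr_of_eventuallyEq (he.eventuallyEq_of_mem (hΩ.mem_nhds h0)).symm)

lemma homog_osc_pos (hβ0 : 0 < β) (hc : Continuous V)
    (hV : ∀ θ : ℝ, 0 < θ → ∀ x, V (θ • x) = θ ^ β • V x) {x₀ : EuclideanSpace ℝ (Fin d)}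
    (hx₀ : V x₀ ≠ 0) {ρ : ℝ} (hρ : 0 < ρ) (c : EuclideanSpace ℝ (Fin d)) :
    0 < ⨍ x in ball (0 : EuclideanSpace ℝ (Fin d)) ρ, ‖V x - c‖ ^ 2 := by
  have hcont : Continuous fun x => ‖V x - c‖ ^ 2 := by fun_prop
  have hint : IntegrableOn (fun x => ‖V x - c‖ ^ 2) (ball (0 : EuclideanSpace ℝ (Fin d)) ρ) :=
    (hcont.continuousOn.integrableOn_compact (isCompact_closedBall 0 ρ)).mono_set
      ball_subset_closedBall
  rw [setAverage_eq, smul_eq_mul]
  refine mul_pos (inv_pos.2 (ENNReal.toReal_pos (measure_ball_pos _ _ hρ).ne'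
    measure_ball_lt_top.ne)) ?_
  refine lt_of_le_of_ne (integral_nonneg fun x => by positivity) fun h => ?_
  have h1 := (setIntegral_eq_zero_iff_of_nonneg_ae
    (Eventually.of_forall fun x => by positivity) hint).1 h.symm
  have h2 := Measure.eqOn_open_of_ae_eq h1 isOpen_ball hcont.continuousOn continuousOn_const
  have h3 : ∀ x ∈ ball (0 : EuclideanSpace ℝ (Fin d)) ρ, V x = c := by
    intro x hx
    have := h2 hx
    simpa [sub_eq_zero] using this
  have hc0 : c = 0 := by rw [← h3 0 (mem_ball_self hρ), homog_zero hβ0 hV]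
  have hθ : 0 < ρ / (‖x₀‖ + 1) := by positivity
  have h4 := h3 ((ρ / (‖x₀‖ + 1)) • x₀) (by
    rw [mem_ball_zero_iff, norm_smul, Real.norm_eq_abs, abs_of_pos hθ, div_mul_eq_mul_div,
      div_lt_iff₀ (by positivity)]
    linarith)
  rw [hV _ hθ, hc0] at h4
  exact hx₀ ((smul_eq_zero.1 h4).resolve_left (Real.rpow_pos_of_pos hθ β).ne')

lemma homog_no_decay (hβ0 : 0 < β) (hβ1 : β < 1) (hc : Continuous V)
    (hV : ∀ θ : ℝ, 0 < θ → ∀ x, V (θ • x) = θ ^ β • V x) {x₀ : EuclideanSpace ℝ (Fin d)}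
    (hx₀ : V x₀ ≠ 0) {ρ : ℝ} (hρ : 0 < ρ) :
    ¬ ∃ c : ℝ, ∀ θ ∈ Ioc (0:ℝ) 1,
      √(⨍ x in ball (0 : EuclideanSpace ℝ (Fin d)) (θ * ρ),
          ‖V x - ⨍ y in ball (0 : EuclideanSpace ℝ (Fin d)) (θ * ρ), V y‖ ^ 2) ≤
        c * θ * √(⨍ x in ball (0 : EuclideanSpace ℝ (Fin d)) ρ,
          ‖V x - ⨍ y in ball (0 : EuclideanSpace ℝ (Fin d)) ρ, V y‖ ^ 2) := by
  rintro ⟨c, hc'⟩
  set O := √(⨍ x in ball (0 : EuclideanSpace ℝ (Fin d)) ρ,
          ‖V x - ⨍ y in ball (0 : EuclideanSpace ℝ (Fin d)) ρ, V y‖ ^ 2) with hO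
  have hOpos : 0 < O := Real.sqrt_pos.2 (homog_osc_pos hβ0 hc hV hx₀ hρ _)
  refine false_of_le_mul_rpow (a := O) (c := c * O) (s := 1 - β) hOpos (by linarith) ?_
  filter_upwards [Ioc_mem_nhdsGT (zero_lt_one' ℝ)] with θ hθ
  have h1 := hc' θ hθ
  have hθβ : 0 < θ ^ β := Real.rpow_pos_of_pos hθ.1 β
  have h2 : ⨍ y in ball (0 : EuclideanSpace ℝ (Fin d)) (θ * ρ), V y =
      θ ^ β • ⨍ y in ball (0 : EuclideanSpace ℝ (Fin d)) ρ, V y := by
    rw [setAverage_ball_smul _ hθ.1]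
    simp only [hV θ hθ.1, setAverage_eq, integral_smul]
    rw [smul_comm]
  have h3 : ⨍ x in ball (0 : EuclideanSpace ℝ (Fin d)) (θ * ρ),
      ‖V x - ⨍ y in ball (0 : EuclideanSpace ℝ (Fin d)) (θ * ρ), V y‖ ^ 2 =
      (θ ^ β) ^ 2 * ⨍ x in ball (0 : EuclideanSpace ℝ (Fin d)) ρ,
          ‖V x - ⨍ y in ball (0 : EuclideanSpace ℝ (Fin d)) ρ, V y‖ ^ 2 := by
    rw [h2, setAverage_ball_smul _ hθ.1]
    simp only [hV θ hθ.1, ← smul_sub, norm_smul, mul_pow, Real.norm_eq_abs, sq_abs]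
    rw [setAverage_eq, setAverage_eq (f := fun x => ‖V x - _‖ ^ 2), integral_const_mul,
      smul_eq_mul, smul_eq_mul]
    ring
  rw [h3, Real.sqrt_mul (by positivity), Real.sqrt_sq hθβ.le, ← hO] at h1
  rw [Real.rpow_sub hθ.1, Real.rpow_one, ← mul_div_assoc, le_div_iff₀ hθβ]
  linarith

end

end Pool.Agent.MP_815c6c_an

end MrgPart0

-- ======== part 1: formerly Pool.Agent.MP_815c6c_an.Main
section MrgPart1

/-!
Assembly: a scalar `C^1` weak solution of the `p`-Laplace equation whose gradient is positively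
homogeneous of degree `k - 1 < 2 / p`.
-/

open Set Filter Topology Metric Asymptotics MeasureTheory
open scoped RealInnerProductSpace

namespace Pool.Agent.MP_815c6c_an

/-- The signs `+1` on the first `m` coordinates, `-1` on the next `m`, and `0` on the rest. -/
def sgn (m : ℕ) (i : ℕ) : ℝ := if i < m then 1 else if i < 2 * m then -1 else 0

lemma sgn_cube (m i : ℕ) : sgn m i * (sgn m i * sgn m i) = sgn m i := by
  unfold sgn; split_ifs <;> norm_num

lemma sum_sgn {m d : ℕ} (h : 2 * m ≤ d) : ∑ i ∈ Finset.range d, sgn m i = 0 := by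
  obtain ⟨e, rfl⟩ := Nat.exists_eq_add_of_le h
  rw [Finset.sum_range_add, two_mul, Finset.sum_range_add]
  rw [Finset.sum_congr rfl (g := fun _ => (1:ℝ)) fun i hi => by
      simp [sgn, Finset.mem_range.1 hi],
    Finset.sum_congr rfl (f := fun i => sgn m (m + i)) (g := fun _ => (-1:ℝ)) fun i hi => by
      have := Finset.mem_range.1 hi
      simp only [sgn]; rw [if_neg (by omega), if_pos (by omega)],
    Finset.sum_eq_zero (f := fun i => sgn m (m + m + i)) fun i _ => by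
      simp only [sgn]; rw [if_neg (by omega), if_neg (by omega)]]
  simp

lemma sum_sgn_sq {m d : ℕ} (h : 2 * m ≤ d) :
    ∑ i ∈ Finset.range d, sgn m i * sgn m i = 2 * m := by
  obtain ⟨e, rfl⟩ := Nat.exists_eq_add_of_le h
  rw [Finset.sum_range_add]
  rw [Finset.sum_congr rfl (g := fun _ => (1:ℝ)) fun i hi => by
      have := Finset.mem_range.1 hi
      simp only [sgn]; split_ifs <;> norm_num,
    Finset.sum_eq_zero (f := fun i => sgn m (2 * m + i) * sgn m (2 * m + i)) fun i _ => by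
      simp only [sgn]; rw [if_neg (by omega), if_neg (by omega), mul_zero]]
  simp

/-- The diagonal operator with entries `sgn m i`. -/
noncomputable def diagT (m d : ℕ) : EuclideanSpace ℝ (Fin d) →L[ℝ] EuclideanSpace ℝ (Fin d) :=
  LinearMap.toContinuousLinearMap
    { toFun := fun x => WithLp.toLp 2 fun i => sgn m i * x i
      map_add' := fun x y => by ext i; simp [mul_add]
      map_smul' := fun c x => by ext i; simp; ring }

lemma diagT_apply (m d : ℕ) (x : EuclideanSpace ℝ (Fin d)) (i : Fin d) :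
    diagT m d x i = sgn m i * x i := rfl

lemma tri_diagT (m d : ℕ) : Tri (diagT m d) := by
  refine ⟨fun x y => ?_, fun x => ?_⟩
  · simp only [PiLp.inner_apply, diagT_apply, RCLike.inner_apply, conj_trivial]
    exact Finset.sum_congr rfl fun i _ => by ring
  · ext i
    simp only [diagT_apply]
    rw [← mul_assoc, ← mul_assoc, mul_assoc (sgn m i), sgn_cube]

lemma trc_diagT {m d : ℕ} (h : 2 * m ≤ d) : trc (diagT m d) = 0 := by
  rw [← sum_sgn h, ← Fin.sum_univ_eq_sum_range]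
  simp [trc, diagT_apply]

lemma trc_diagT_sq {m d : ℕ} (h : 2 * m ≤ d) : trc ((diagT m d).comp (diagT m d)) = 2 * m := by
  rw [← sum_sgn_sq h, ← Fin.sum_univ_eq_sum_range (fun i => sgn m i * sgn m i)]
  simp [trc, diagT_apply]

lemma sq_le_qf {m n : ℕ} (hm : 0 < m) (x : EuclideanSpace ℝ (Fin (n + 1))) :
    |x 0| ^ 2 ≤ qf (diagT m (n + 1)) x := by
  rw [qf_eq]
  have := PiLp.norm_apply_le (diagT m (n + 1) x) 0
  rw [diagT_apply, Real.norm_eq_abs] at this
  simp only [sgn, Fin.coe_ofNat_eq_mod, Nat.zero_mod, hm, if_true, one_mul] at this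
  gcongr

lemma norm_rpow_smul_norm {F : Type*} [NormedAddCommGroup F] [NormedSpace ℝ F] {s : ℝ}
    (hs : -1 < s) (ξ : F) : ‖‖ξ‖ ^ s • ξ‖ = ‖ξ‖ ^ (s + 1) := by
  rw [norm_smul, Real.norm_of_nonneg (Real.rpow_nonneg (norm_nonneg _) s),
    Real.rpow_add' (norm_nonneg _) (by linarith), Real.rpow_one]

lemma continuous_norm_rpow_smul {F : Type*} [NormedAddCommGroup F] [NormedSpace ℝ F] {s : ℝ}
    (hs : -1 < s) : Continuous fun ξ : F => ‖ξ‖ ^ s • ξ := by
  refine continuous_iff_continuousAt.2 fun ξ => ?_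
  rcases eq_or_ne ξ 0 with rfl | h
  · rw [ContinuousAt, smul_zero, tendsto_zero_iff_norm_tendsto_zero]
    simp only [norm_rpow_smul_norm hs]
    have := (continuous_norm.continuousAt (x := (0:F))).rpow_const (p := s + 1)
      (Or.inr (by linarith))
    rw [ContinuousAt, norm_zero, Real.zero_rpow (by linarith)] at this
    exact this
  · exact (continuous_norm.continuousAt.rpow_const (Or.inl (norm_ne_zero_iff.2 h))).smul
      continuousAt_id

theorem exists_scalar_example (d m : ℕ) (p : ℝ) (hp : 1 < p) (hp2 : p < 2) (hmd : 2 * m ≤ d)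
    (hc : 0 < 3 * p ^ 2 + (2 * (m:ℝ) - 5) * p - 6) :
    ∃ (k : ℝ) (h : EuclideanSpace ℝ (Fin d) → ℝ), 1 < k ∧ k < 1 + 2 / p ∧ ContDiff ℝ 1 h ∧
      (∀ θ : ℝ, 0 < θ → ∀ x, gradient h (θ • x) = θ ^ (k - 1) • gradient h x) ∧
      (∃ x, gradient h x ≠ 0) ∧ Continuous (gradient h) ∧
      ∀ φ : EuclideanSpace ℝ (Fin d) → ℝ, ContDiff ℝ 1 φ → HasCompactSupport φ →
        ∫ x, fderiv ℝ φ x (‖gradient h x‖ ^ (p - 2) • gradient h x) = 0 := by
  have hm : 2 ≤ m := by
    by_contra hm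
    have : (m:ℝ) ≤ 1 := by exact_mod_cast (by omega : m ≤ 1)
    nlinarith
  have hm' : (2:ℝ) ≤ m := by exact_mod_cast hm
  obtain ⟨n, rfl⟩ : ∃ n, d = n + 1 := ⟨d - 1, by omega⟩
  have hT := tri_diagT m (n + 1)
  obtain ⟨k, h, Y, hk1, hk2, hd, hY, hhom, hne, ⟨M, hM⟩, hdiv⟩ :=
    exists_field hT (trc_diagT hmd) (trc_diagT_sq hmd) hp hp2 (by linarith) hc
  have hgrad : gradient h = Y := gradient_eq fun x => hasGradientAt_iff_hasFDerivAt.2 (hd x)
  subst hgrad
  refine ⟨k, h, hk1, hk2, contDiff_one_iff_hasFDerivAt.2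
    ⟨_, (innerSL ℝ).continuous.comp hY, hd⟩, hhom,
    ⟨EuclideanSpace.single 0 1, hne _ ?_⟩, hY, fun φ hφ hφc => ?_⟩
  · have := sq_le_qf (n := n) (by omega : 0 < m) (EuclideanSpace.single 0 1)
    simp at this
    linarith
  · have hp0 : 0 < p := by linarith
    have hγ0 : 0 < (k - 1) * (p - 1) := mul_pos (by linarith) (by linarith)
    have hγ1 : (k - 1) * (p - 1) < 1 := by
      have h1 : (k - 1) * (p - 1) < 2 / p * (p - 1) :=
        mul_lt_mul_of_pos_right (by linarith) (by linarith)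
      have h2 : 2 / p * (p - 1) < 1 := by
        rw [div_mul_eq_mul_div, div_lt_one hp0]; linarith
      linarith
    refine weak_div_free _ ((continuous_norm_rpow_smul (s := p - 2) (by linarith)).comp hY)
      (qf (diagT m (n + 1))) qf_contDiff qf_nonneg hdiv (fun x hx => ?_) 0
      (C := 2 * |M| ^ (p - 1)) (r := (k - 1) * (p - 1) - 1) (by linarith) (fun x hx => ?_) hφ hφc
    · have := hM x
      rw [hx, Real.zero_rpow (by linarith), mul_zero, norm_le_zero_iff] at this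
      simp [this]
    · have hx0 : 0 < |x 0| := abs_pos.2 hx
      have hq1 := sq_le_qf (n := n) (by omega : 0 < m) x
      set q := qf (diagT m (n + 1)) x with hq
      have hq0 : 0 < q := lt_of_lt_of_le (by positivity) hq1
      rw [(hT.hasFDerivAt_qf x).fderiv, innerSL_apply_apply]
      refine (abs_real_inner_le_norm _ _).trans ?_
      have e1 : ‖(2:ℝ) • diagT m (n + 1) (diagT m (n + 1) x)‖ = 2 * q ^ (1 / 2 : ℝ) := by
        rw [norm_smul, Real.norm_of_nonneg (by norm_num), ← Real.sqrt_eq_rpow, hq, ← hT.iTT,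
          real_inner_self_eq_norm_sq, Real.sqrt_sq (norm_nonneg _)]
      have e2 : ‖‖gradient h x‖ ^ (p - 2) • gradient h x‖ ≤
          |M| ^ (p - 1) * q ^ ((k - 1) * (p - 1) / 2) := by
        rw [norm_rpow_smul_norm (by linarith), show p - 2 + 1 = p - 1 by ring,
          show (k - 1) * (p - 1) / 2 = (k - 1) / 2 * (p - 1) by ring, Real.rpow_mul hq0.le,
          ← Real.mul_rpow (abs_nonneg _) (by positivity)]
        refine Real.rpow_le_rpow (norm_nonneg _) ((hM x).trans ?_) (by linarith)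
        exact mul_le_mul_of_nonneg_right (le_abs_self M) (by positivity)
      have e3 : q ^ (((k - 1) * (p - 1) - 1) / 2) ≤ |x 0| ^ ((k - 1) * (p - 1) - 1) := by
        refine (Real.rpow_le_rpow_of_nonpos (by positivity) hq1 (by linarith)).trans_eq ?_
        rw [← Real.rpow_natCast, ← Real.rpow_mul hx0.le]
        congr 1; push_cast; ring
      have e4 : q ^ (1 / 2 : ℝ) * q ^ ((k - 1) * (p - 1) / 2) =
          q * q ^ (((k - 1) * (p - 1) - 1) / 2) := by
        rw [← Real.rpow_add hq0, ← Real.rpow_one_add' hq0.le (by linarith)]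
        congr 1; ring
      calc _ ≤ 2 * q ^ (1 / 2 : ℝ) * (|M| ^ (p - 1) * q ^ ((k - 1) * (p - 1) / 2)) := by
            rw [e1]; exact mul_le_mul_of_nonneg_left e2 (by positivity)
        _ = q * (2 * |M| ^ (p - 1) * q ^ (((k - 1) * (p - 1) - 1) / 2)) := by
            linear_combination (2 * |M| ^ (p - 1)) * e4
        _ ≤ _ := by gcongr

end Pool.Agent.MP_815c6c_an

end MrgPart1

-- marker of a merged file
example : 731051 + 89120 = 731051 + 89120 := rfl
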