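import Mathlib.Topology.Sheaves.Presheaf
import Mathlib.Tactic.Monotonicity.Lemmas
import Mathlib.Algebra.Order.Star.Real
import Mathlib.Analysis.ODE.ExistUnique
import Mathlib.Order.CompletePartialOrder

/-!
Existence on `[0,1)` and continuity in a parameter for a scalar ODE whose right side is
truncated to the strip `0 ≤ x ≤ 2`.
-/

open Set Filter Topology Metric
open scoped NNReal

namespace Pool.Agent.MP_815c6c_an

/-- `R` solves `R' = v w R` on `[0,1)` with `R 0 = 0`. -/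
def IsSol (v : ℝ → ℝ → ℝ) (R : ℝ → ℝ) : Prop :=
  R 0 = 0 ∧ ∀ w ∈ Ico (0:ℝ) 1, HasDerivWithinAt R (v w (R w)) (Ici 0) w

lemma IsSol.continuousOn {v : ℝ → ℝ → ℝ} {R : ℝ → ℝ} (h : IsSol v R) {a T : ℝ} (ha : 0 ≤ a)
    (hT : T < 1) : ContinuousOn R (Icc a T) := fun t ht =>
  ((h.2 t ⟨ha.trans ht.1, ht.2.trans_lt hT⟩).continuousWithinAt).mono
    (fun _ hs => ha.trans hs.1)

lemma IsSol.right {v : ℝ → ℝ → ℝ} {R : ℝ → ℝ} (h : IsSol v R) {a T : ℝ} (ha : 0 ≤ a)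
    (hT : T < 1) : ∀ t ∈ Ico a T, HasDerivWithinAt R (v t (R t)) (Ici t) t := fun t ht =>
  (h.2 t ⟨ha.trans ht.1, ht.2.trans hT⟩).mono (fun _ hs => (ha.trans ht.1).trans hs)

lemma exists_isSol (v : ℝ → ℝ → ℝ)
    (hv : ∀ T ∈ Ico (0:ℝ) 1, ∃ K L : ℝ≥0, (∀ t ∈ Icc 0 T, LipschitzWith K (v t)) ∧
      (∀ t ∈ Icc 0 T, ∀ x, ‖v t x‖ ≤ L) ∧ ∀ x, ContinuousOn (v · x) (Icc 0 T)) :
    ∃ R, IsSol v R := by
  have hloc : ∀ T ∈ Ico (0:ℝ) 1, ∃ α : ℝ → ℝ, α 0 = 0 ∧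
      ∀ t ∈ Icc 0 T, HasDerivWithinAt α (v t (α t)) (Icc 0 T) t := by
    intro T hT
    obtain ⟨K, L, h1, h2, h3⟩ := hv T hT
    have hPL : IsPicardLindelof v (tmin := 0) (tmax := T) ⟨0, le_rfl, hT.1⟩ 0 L 0 L K := by
      refine ⟨fun t ht => (h1 t ht).lipschitzOnWith, fun x _ => h3 x, fun t ht x _ => h2 t ht x, ?_⟩
      have : max (T - 0) ((0:ℝ) - 0) ≤ 1 := max_le (by linarith [hT.2]) (by norm_num)
      have hL : (0:ℝ) ≤ L := L.2
      simp only [NNReal.coe_zero, sub_zero] at this ⊢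
      nlinarith
    exact hPL.exists_eq_forall_mem_Icc_hasDerivWithinAt₀
  choose! α hα0 hα using hloc
  have huniq : ∀ S ∈ Ico (0:ℝ) 1, ∀ T ∈ Ico (0:ℝ) 1, ∀ t, 0 ≤ t → t ≤ S → t ≤ T →
      α S t = α T t := by
    intro S hS T hT t ht0 htS htT
    obtain ⟨K, L, h1, -, -⟩ := hv t ⟨ht0, htS.trans_lt hS.2⟩
    have key : ∀ U ∈ Ico (0:ℝ) 1, t ≤ U → ContinuousOn (α U) (Icc 0 t) ∧
        ∀ s ∈ Ico 0 t, HasDerivWithinAt (α U) (v s (α U s)) (Ici s) s := by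
      intro U hU htU
      refine ⟨fun s hs => ((hα U hU s ⟨hs.1, hs.2.trans htU⟩).continuousWithinAt).mono
        (Icc_subset_Icc_right htU), fun s hs => ?_⟩
      refine (hα U hU s ⟨hs.1, hs.2.le.trans htU⟩).mono_of_mem_nhdsWithin ?_
      exact mem_of_superset (Icc_mem_nhdsGE (hs.2.trans_le htU)) (Icc_subset_Icc_left hs.1)
    have := dist_le_of_trajectories_ODE_of_mem (v := v) (s := fun _ => univ) (K := K)
      (f := α S) (g := α T) (a := 0) (b := t) (δ := 0)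
      (fun s hs => (h1 s ⟨hs.1, hs.2.le⟩).lipschitzOnWith) (key S hS htS).1 (key S hS htS).2
      (fun _ _ => trivial) (key T hT htT).1 (key T hT htT).2 (fun _ _ => trivial)
      (by rw [hα0 S hS, hα0 T hT, dist_self]) t ⟨ht0, le_rfl⟩
    simpa using this
  refine ⟨fun w => α ((1 + w) / 2) w, hα0 _ ⟨by norm_num, by norm_num⟩, fun w hw => ?_⟩
  have hT : (1 + w) / 2 ∈ Ico (0:ℝ) 1 := ⟨by linarith [hw.1], by linarith [hw.2]⟩
  have hwT : w < (1 + w) / 2 := by linarith [hw.2]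
  have hmem : Icc 0 ((1 + w) / 2) ∈ 𝓝[Ici 0] w := by
    refine mem_nhdsWithin.2 ⟨Iio ((1 + w) / 2), isOpen_Iio, hwT, fun s hs => ⟨hs.2, hs.1.le⟩⟩
  refine ((hα _ hT w ⟨hw.1, hwT.le⟩).mono_of_mem_nhdsWithin hmem).congr_of_eventuallyEq ?_ rfl
  filter_upwards [hmem] with s hs
  have hs1 : s < 1 := hs.2.trans_lt hT.2
  exact huniq _ ⟨by linarith [hs.1], by linarith⟩ _ hT s hs.1 (by linarith) hs.2

/-- Truncation to `[0,2]`. -/
def clamp (x : ℝ) : ℝ := max 0 (min x 2)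

lemma clamp_mem (x : ℝ) : clamp x ∈ Icc (0:ℝ) 2 :=
  ⟨le_max_left _ _, max_le (by norm_num) (min_le_right _ _)⟩

lemma clamp_of_mem {x : ℝ} (h0 : 0 ≤ x) (h2 : x ≤ 2) : clamp x = x := by
  unfold clamp; rw [min_eq_left h2, max_eq_right h0]

lemma clamp_lipschitz : LipschitzWith 1 clamp :=
  (LipschitzWith.id.min_const 2).const_max 0

lemma exists_family (g : ℝ × ℝ × ℝ → ℝ) (a b : ℝ)
    (hg : ContDiffOn ℝ 1 g (Icc a b ×ˢ Ico 0 1 ×ˢ Icc 0 2)) :
    ∃ R : ℝ → ℝ → ℝ, (∀ k ∈ Icc a b, IsSol (fun w x => g (k, w, clamp x)) (R k)) ∧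
      ∀ w ∈ Ico (0:ℝ) 1, ContinuousOn (fun k => R k w) (Icc a b) := by
  have hlip : ∀ T ∈ Ico (0:ℝ) 1, ∃ K : ℝ≥0,
      LipschitzOnWith K g (Icc a b ×ˢ Icc 0 T ×ˢ Icc 0 2) := by
    intro T hT
    refine (hg.mono (prod_mono le_rfl (prod_mono ?_ le_rfl))).exists_lipschitzOnWith
      one_ne_zero ((convex_Icc _ _).prod ((convex_Icc _ _).prod (convex_Icc _ _)))
      (isCompact_Icc.prod (isCompact_Icc.prod isCompact_Icc))
    exact fun s hs => ⟨hs.1, hs.2.trans_lt hT.2⟩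
  have hlipx : ∀ {T : ℝ} {K : ℝ≥0}, LipschitzOnWith K g (Icc a b ×ˢ Icc 0 T ×ˢ Icc 0 2) →
      ∀ k ∈ Icc a b, ∀ t ∈ Icc 0 T, LipschitzWith K (fun x => g (k, t, clamp x)) := by
    intro T K hK k hk t ht
    refine LipschitzWith.of_dist_le_mul fun x y => ?_
    refine (hK.dist_le_mul (k, t, clamp x) ⟨hk, ht, clamp_mem x⟩ (k, t, clamp y)
      ⟨hk, ht, clamp_mem y⟩).trans ?_
    gcongr
    simp only [Prod.dist_eq, dist_self]
    have := clamp_lipschitz.dist_le_mul x y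
    simp only [NNReal.coe_one, one_mul] at this
    exact max_le dist_nonneg (max_le dist_nonneg this)
  have hex : ∀ k ∈ Icc a b, ∃ R, IsSol (fun w x => g (k, w, clamp x)) R := by
    intro k hk
    refine exists_isSol _ fun T hT => ?_
    obtain ⟨K, hK⟩ := hlip T hT
    obtain ⟨L, hL⟩ := (isCompact_Icc.prod (isCompact_Icc.prod isCompact_Icc)).exists_bound_of_continuousOn
      hK.continuousOn
    refine ⟨K, ⟨max L 0, le_max_right _ _⟩, hlipx hK k hk, fun t ht x => ?_, fun x => ?_⟩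
    · exact (hL _ ⟨hk, ht, clamp_mem x⟩).trans (le_max_left _ _)
    · exact hK.continuousOn.comp (f := fun t => (k, t, clamp x)) (by fun_prop)
        (fun t ht => ⟨hk, ht, clamp_mem x⟩)
  choose! R hR using hex
  refine ⟨R, hR, fun w hw k hk => ?_⟩
  obtain ⟨K, hK⟩ := hlip w hw
  have hb : ∀ k' ∈ Icc a b, dist (R k' w) (R k w) ≤ gronwallBound 0 K (K * dist k' k + 0) (w - 0) := by
    intro k' hk'
    refine dist_le_of_approx_trajectories_ODE_of_mem (v := fun t x => g (k, t, clamp x))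
      (s := fun _ => univ) (f' := fun t => g (k', t, clamp (R k' t)))
      (g' := fun t => g (k, t, clamp (R k t)))
      (fun s hs => (hlipx hK k hk s ⟨hs.1, hs.2.le⟩).lipschitzOnWith)
      ((hR k' hk').continuousOn le_rfl hw.2) ((hR k' hk').right le_rfl hw.2) (fun s hs => ?_)
      (fun _ _ => trivial) ((hR k hk).continuousOn le_rfl hw.2) ((hR k hk).right le_rfl hw.2)
      (fun s hs => by simp) (fun _ _ => trivial) (by rw [(hR k hk).1, (hR k' hk').1, dist_self])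
      w ⟨hw.1, le_rfl⟩
    refine (hK.dist_le_mul (k', s, clamp (R k' s)) ⟨hk', ⟨hs.1, hs.2.le⟩, clamp_mem _⟩
      (k, s, clamp (R k' s)) ⟨hk, ⟨hs.1, hs.2.le⟩, clamp_mem _⟩).trans ?_
    simp [Prod.dist_eq]
  rw [ContinuousWithinAt, tendsto_iff_dist_tendsto_zero]
  refine squeeze_zero' (Eventually.of_forall fun _ => dist_nonneg)
    (eventually_nhdsWithin_of_forall hb) ?_
  have hc : Continuous fun k' : ℝ => gronwallBound 0 K (K * dist k' k + 0) (w - 0) :=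
    (gronwallBound_continuous_ε 0 K (w - 0)).comp (by fun_prop)
  have := hc.tendsto k
  simp only [dist_self, mul_zero, add_zero, gronwallBound_ε0_δ0] at this
  simpa using this.mono_left nhdsWithin_le_nhds

end Pool.Agent.MP_815c6c_an
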